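import Mathlib

/-!
# LT4: `k`-reaching sequences of length `(4 + ε) n` (MP_ee2f63_co, helper1)

There are `k + 1` hubs; the other wires are called leaves. Every leaf `ℓ` gets two blocks `s₁ ℓ`, `s₂ ℓ` among `N = ε n` blocks. In-phase: two passes; in pass `p` the
blocks `b` follow each other; block `b` consists of `k` gates `(hub 0, hub j)`, which allow to make hub `0` free, and the gates `(hub 0, ℓ)` for the
leaves `ℓ` with `s_p ℓ = b`. So every block can bring one token from its leaves to the hubs. If any `j ≤ k` leaves have at least `j` blocks
(the pairs `(s₁ ℓ, s₂ ℓ)` are the edges of a graph in which any `k` edges form a forest), then by Hall's theorem any `k` tokens can be brought to the hubs. The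
out-phase is the reversed in-phase, and between them there is a list which can apply every permutation of the hubs.
-/

set_option autoImplicit false

namespace Pool.Agent.LT4

/-- the list `L` of transpositions is `k`-reaching -/
def Reaching (k n : ℕ) (L : List (Fin n × Fin n)) : Prop :=
  ∀ x y : Fin k → Fin n, Function.Injective x → Function.Injective y →
    ∃ S : List (Fin n × Fin n), S.Sublist L ∧
      ∀ i, (S.map fun c => Equiv.swap c.1 c.2).prod (x i) = y i

/-- some sublist of `L` takes `y` to `z` (the last element of the list acts first) -/
def Rt {W ι : Type} [DecidableEq W] (L : List (W × W)) (y z : ι → W) : Prop :=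
  ∃ S : List (W × W), S.Sublist L ∧ ∀ i, (S.map fun c => Equiv.swap c.1 c.2).prod (y i) = z i

/-- the endpoints of the pairs `s ℓ`, `ℓ ∈ A` -/
def ends {m N : ℕ} (s : Fin m → Fin N × Fin N) (A : Finset (Fin m)) : Finset (Fin N) :=
  A.biUnion fun l => {(s l).1, (s l).2}

/-- the slots of the clusters in `A`; slot `j` of the cluster `c` is `(j, s c j)` -/
def slots {g M N : ℕ} (s : Fin M → Fin g → Fin N) (A : Finset (Fin M)) : Finset (Fin g × Fin N) :=
  A.biUnion fun c => Finset.univ.image fun j => (j, s c j)

end Pool.Agent.LT4
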