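import Pool.Agent.LT4.Defs

/-!
# LT4: the inner gates of a cluster (module I)
-/

set_option autoImplicit false

namespace Pool.Agent.LT4

/-- the product of the transpositions of a list -/
def sw {V : Type} [DecidableEq V] (S : List (V × V)) : Equiv.Perm V :=
  (S.map fun c => Equiv.swap c.1 c.2).prod

theorem sw_map {V W : Type} [DecidableEq V] [DecidableEq W] {f : V → W}
    (hf : Function.Injective f) (S : List (V × V)) (a : V) :
    sw (S.map fun c => (f c.1, f c.2)) (f a) = f (sw S a) := by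
  induction S with
  | nil => rfl
  | cons c S ih =>
    have h1 : sw (c :: S) a = Equiv.swap c.1 c.2 (sw S a) := by
      simp [sw]
    have h2 : sw ((c :: S).map fun c => (f c.1, f c.2)) (f a) =
        Equiv.swap (f c.1) (f c.2) (sw (S.map fun c => (f c.1, f c.2)) (f a)) := by
      simp [sw]
    rw [h1, h2, ih, hf.map_swap]

theorem inner_aux (r : ℕ) : ∃ I : List (Fin (2 ^ r) × Fin (2 ^ r)), I.length + 1 = 2 ^ r ∧
    (∀ c ∈ I, c.1 ≠ c.2) ∧ ∀ o : Fin (2 ^ r), ∃ E : Finset (Fin (2 ^ r)), r + 1 ≤ E.card ∧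
      ∀ a ∈ E, ∃ S : List (Fin (2 ^ r) × Fin (2 ^ r)), S.Sublist I ∧ sw S a = o := by
  classical
  induction r with
  | zero =>
    refine ⟨[], by simp, by simp, fun o => ⟨{o}, by simp, ?_⟩⟩
    intro a ha
    rw [Finset.mem_singleton] at ha
    exact ⟨[], List.Sublist.refl _, by simp [sw, ha]⟩
  | succ r ih =>
    obtain ⟨I, hI, hne, hE⟩ := ih
    obtain ⟨e, he⟩ : ∃ e : Fin (2 ^ r) ⊕ Fin (2 ^ r) ≃ Fin (2 ^ (r + 1)), e = e :=
      ⟨finSumFinEquiv.trans (finCongr (by rw [pow_succ]; ring)), rfl⟩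
    obtain ⟨f, hf⟩ : ∃ f : Fin (2 ^ r) → Fin (2 ^ (r + 1)), ∀ v, f v = e (Sum.inl v) :=
      ⟨fun v => e (Sum.inl v), fun v => rfl⟩
    obtain ⟨g, hg⟩ : ∃ g : Fin (2 ^ r) → Fin (2 ^ (r + 1)), ∀ v, g v = e (Sum.inr v) :=
      ⟨fun v => e (Sum.inr v), fun v => rfl⟩
    have hfi : Function.Injective f := by
      intro v w h
      rw [hf, hf] at h
      exact Sum.inl_injective (e.injective h)
    have hfg : ∀ v w, f v ≠ g w := by
      intro v w h
      rw [hf, hg] at h
      exact Sum.inl_ne_inr (e.injective h)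
    refine ⟨(List.finRange (2 ^ r)).map (fun v => (f v, g v)) ++
      I.map (fun c => (f c.1, f c.2)), ?_, ?_, ?_⟩
    · rw [List.length_append, List.length_map, List.length_map, List.length_finRange, pow_succ]
      omega
    · intro c hc
      rcases List.mem_append.1 hc with hc | hc
      · obtain ⟨v, _, rfl⟩ := List.mem_map.1 hc
        exact hfg v v
      · obtain ⟨c', hc', rfl⟩ := List.mem_map.1 hc
        exact fun h => hne c' hc' (hfi h)
    · intro o
      have hgate : ∀ v, [(f v, g v)].Sublist ((List.finRange (2 ^ r)).map (fun v => (f v, g v))) :=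
        fun v => List.singleton_sublist.2 (List.mem_map.2 ⟨v, List.mem_finRange v, rfl⟩)
      have hcard : ∀ (v : Fin (2 ^ r)) (E : Finset (Fin (2 ^ r))), r + 1 ≤ E.card →
          r + 1 + 1 ≤ (insert (g v) (E.image f)).card := by
        intro v E hE
        rw [Finset.card_insert_of_notMem, Finset.card_image_of_injective E hfi]
        · omega
        · intro h
          obtain ⟨w, _, hw⟩ := Finset.mem_image.1 h
          exact hfg w v hw
      obtain ⟨x, hx⟩ := e.surjective o
      rcases x with v | v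
      · rw [← hf] at hx
        obtain ⟨E, hE1, hE2⟩ := hE v
        refine ⟨insert (g v) (E.image f), hcard v E hE1, ?_⟩
        intro a ha
        rcases Finset.mem_insert.1 ha with rfl | ha
        · refine ⟨[(f v, g v)], (hgate v).trans (List.sublist_append_left _ _), ?_⟩
          rw [← hx]
          simp [sw]
        · obtain ⟨a', ha', rfl⟩ := Finset.mem_image.1 ha
          obtain ⟨S, hS, hSa⟩ := hE2 a' ha'
          refine ⟨S.map (fun c => (f c.1, f c.2)), (hS.map _).trans
            (List.sublist_append_right _ _), ?_⟩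
          rw [sw_map hfi, hSa, hx]
      · rw [← hg] at hx
        obtain ⟨E, hE1, hE2⟩ := hE v
        refine ⟨insert (g v) (E.image f), hcard v E hE1, ?_⟩
        intro a ha
        rcases Finset.mem_insert.1 ha with rfl | ha
        · refine ⟨[], List.nil_sublist _, ?_⟩
          rw [← hx]
          simp [sw]
        · obtain ⟨a', ha', rfl⟩ := Finset.mem_image.1 ha
          obtain ⟨S, hS, hSa⟩ := hE2 a' ha'
          refine ⟨[(f v, g v)] ++ S.map (fun c => (f c.1, f c.2)),
            (hgate v).append (hS.map _), ?_⟩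
          have h1 : sw ([(f v, g v)] ++ S.map (fun c => (f c.1, f c.2))) (f a') =
              Equiv.swap (f v) (g v) (sw (S.map (fun c => (f c.1, f c.2))) (f a')) := by
            simp [sw]
          rw [h1, sw_map hfi, hSa, Equiv.swap_apply_left, hx]

/-- (I) `2 ^ r - 1` gates on `2 ^ r` leaves make any given leaf free of any `r` tokens -/
theorem inner (r : ℕ) : ∃ I : List (Fin (2 ^ r) × Fin (2 ^ r)), I.length + 1 = 2 ^ r ∧
    (∀ c ∈ I, c.1 ≠ c.2) ∧ ∀ (o : Fin (2 ^ r)) (T : Finset (Fin (2 ^ r))), T.card ≤ r →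
      ∃ S : List (Fin (2 ^ r) × Fin (2 ^ r)), S.Sublist I ∧
        ∀ a ∈ T, (S.map fun c => Equiv.swap c.1 c.2).prod a ≠ o := by
  obtain ⟨I, h1, h2, h3⟩ := inner_aux r
  refine ⟨I, h1, h2, ?_⟩
  intro o T hT
  obtain ⟨E, hE1, hE2⟩ := h3 o
  obtain ⟨a, haE, haT⟩ : ∃ a ∈ E, a ∉ T := by
    by_contra hcon
    push Not at hcon
    have := Finset.card_le_card (s := E) (t := T) hcon
    omega
  obtain ⟨S, hS, hSa⟩ := hE2 a haE
  refine ⟨S, hS, ?_⟩
  intro b hb hbo
  have h4 : sw S b = sw S a := by
    rw [hSa]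
    exact hbo
  have := (sw S).injective h4
  rw [this] at hb
  exact haT hb

end Pool.Agent.LT4
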