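import Pool.Agent.LT4.Defs

/-!
# LT4: the free leaf of every cluster (module O)
-/

set_option autoImplicit false

namespace Pool.Agent.LT4

/-- the slots of the cluster `c` which are slots of another cluster in `A` -/
def shr {g M N : ℕ} (s : Fin M → Fin g → Fin N) (A : Finset (Fin M)) (c : Fin M) : Finset (Fin g) :=
  Finset.univ.filter fun j => ∃ c' ∈ A, c' ≠ c ∧ s c' j = s c j

theorem slots_count {g M N : ℕ} (s : Fin M → Fin g → Fin N) (A : Finset (Fin M)) :
    2 * (slots s A).card + ∑ c ∈ A, (shr s A c).card ≤ 2 * (g * A.card) := by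
  classical
  let w : Fin M × Fin g → ℕ := fun x => if x.2 ∈ shr s A x.1 then 1 else 2
  have hw : ∀ x, w x = if x.2 ∈ shr s A x.1 then 1 else 2 := fun x => rfl
  have h1 : ∑ x ∈ A ×ˢ (Finset.univ : Finset (Fin g)), w x + ∑ c ∈ A, (shr s A c).card =
      2 * (g * A.card) := by
    rw [Finset.sum_product, ← Finset.sum_add_distrib]
    have h2 : ∀ c ∈ A, ∑ j : Fin g, w (c, j) + (shr s A c).card = 2 * g := by
      intro c _
      have h3 : (shr s A c).card = ∑ j : Fin g, if j ∈ shr s A c then 1 else 0 := by
        rw [Finset.sum_ite_mem, Finset.univ_inter, Finset.card_eq_sum_ones]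
      rw [h3, ← Finset.sum_add_distrib]
      have h4 : ∀ j ∈ (Finset.univ : Finset (Fin g)),
          w (c, j) + (if j ∈ shr s A c then 1 else 0) = 2 := by
        intro j _
        rw [hw]
        by_cases h : j ∈ shr s A c
        · rw [if_pos h, if_pos h]
        · rw [if_neg h, if_neg h]
      rw [Finset.sum_congr rfl h4, Finset.sum_const, Finset.card_univ, Fintype.card_fin,
        smul_eq_mul, mul_comm]
    rw [Finset.sum_congr rfl h2, Finset.sum_const, smul_eq_mul]
    ring
  have h5 : 2 * (slots s A).card ≤ ∑ x ∈ A ×ˢ (Finset.univ : Finset (Fin g)), w x := by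
    have hmaps : ∀ x ∈ A ×ˢ (Finset.univ : Finset (Fin g)), (x.2, s x.1 x.2) ∈ slots s A := by
      intro x hx
      rw [Finset.mem_product] at hx
      rw [slots, Finset.mem_biUnion]
      exact ⟨x.1, hx.1, Finset.mem_image.2 ⟨x.2, Finset.mem_univ _, rfl⟩⟩
    rw [← Finset.sum_fiberwise_of_maps_to hmaps w]
    have h6 : ∀ t ∈ slots s A, 2 ≤ ∑ x ∈ (A ×ˢ (Finset.univ : Finset (Fin g))).filter
        (fun x => (x.2, s x.1 x.2) = t), w x := by
      intro t ht
      rw [slots, Finset.mem_biUnion] at ht
      obtain ⟨c, hc, ht⟩ := ht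
      obtain ⟨j, _, rfl⟩ := Finset.mem_image.1 ht
      have hmem : (c, j) ∈ (A ×ˢ (Finset.univ : Finset (Fin g))).filter
          (fun x => (x.2, s x.1 x.2) = (j, s c j)) := by
        rw [Finset.mem_filter, Finset.mem_product]
        exact ⟨⟨hc, Finset.mem_univ _⟩, rfl⟩
      by_cases hj : j ∈ shr s A c
      · obtain ⟨c', hc', hne, he⟩ := (Finset.mem_filter.1 hj).2
        have hmem' : (c', j) ∈ (A ×ˢ (Finset.univ : Finset (Fin g))).filter
            (fun x => (x.2, s x.1 x.2) = (j, s c j)) := by
          rw [Finset.mem_filter, Finset.mem_product]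
          refine ⟨⟨hc', Finset.mem_univ _⟩, ?_⟩
          show (j, s c' j) = (j, s c j)
          rw [he]
        have hsub : ({(c, j), (c', j)} : Finset (Fin M × Fin g)) ⊆
            (A ×ˢ (Finset.univ : Finset (Fin g))).filter
              (fun x => (x.2, s x.1 x.2) = (j, s c j)) := by
          intro x hx
          rcases Finset.mem_insert.1 hx with rfl | hx
          · exact hmem
          · rw [Finset.mem_singleton] at hx
            rw [hx]
            exact hmem'
        refine le_trans ?_ (Finset.sum_le_sum_of_subset hsub)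
        rw [Finset.sum_pair (fun h => hne (by rw [Prod.mk.injEq] at h; exact h.1.symm))]
        have h7 : ∀ x, 1 ≤ w x := by
          intro x
          rw [hw]
          split_ifs <;> omega
        have := h7 (c, j)
        have := h7 (c', j)
        omega
      · refine le_trans ?_ (Finset.single_le_sum (f := w) (fun x _ => Nat.zero_le _) hmem)
        rw [hw, if_neg hj]
    calc 2 * (slots s A).card = ∑ t ∈ slots s A, 2 := by
          rw [Finset.sum_const, smul_eq_mul, mul_comm]
      _ ≤ _ := Finset.sum_le_sum h6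
  omega

/-- (O) in a forest of clusters every shared slot of `A` can be the free slot of one of its clusters,
and `c₀` is not used -/
theorem order {k g N M : ℕ} (hg : 1 ≤ g) (s : Fin M → Fin g → Fin N)
    (hs : ∀ A : Finset (Fin M), A.Nonempty → A.card ≤ k →
      (g - 1) * A.card + 1 ≤ (slots s A).card)
    (A : Finset (Fin M)) (hA : A.card ≤ k) (c₀ : Fin M) :
    ∃ o : Fin M → Fin g, ∀ c ∈ A, ∀ c' ∈ A, c ≠ c' → ∀ j, s c j = s c' j →
      (c ≠ c₀ ∧ o c = j) ∨ (c' ≠ c₀ ∧ o c' = j) := by
  classical
  obtain ⟨n, hn⟩ : ∃ n, A.card = n := ⟨_, rfl⟩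
  induction n generalizing A with
  | zero =>
    rw [Finset.card_eq_zero] at hn
    subst hn
    exact ⟨fun _ => ⟨0, hg⟩, fun c hc => by simp at hc⟩
  | succ n ih =>
    have hne : A.Nonempty := by
      rw [← Finset.card_pos]; omega
    have hcount := slots_count s A
    have hslots := hs A hne hA
    have hsum : ∑ c ∈ A, (shr s A c).card + 2 ≤ 2 * A.card := by
      obtain ⟨g', rfl⟩ : ∃ g', g = g' + 1 := ⟨g - 1, by omega⟩
      have e1 : (g' + 1 - 1) * A.card = g' * A.card := by rw [Nat.add_sub_cancel]
      have e2 : (g' + 1) * A.card = g' * A.card + A.card := by ring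
      rw [e1] at hslots
      rw [e2] at hcount
      omega
    by_cases h0 : c₀ ∈ A ∧ shr s A c₀ = ∅
    · -- nothing is shared with `c₀`
      obtain ⟨h0, h0'⟩ := h0
      have hcard := Finset.card_erase_of_mem h0
      obtain ⟨o, ho⟩ := ih (A.erase c₀) (by omega) (by omega)
      have hno : ∀ c' ∈ A, c' ≠ c₀ → ∀ j, s c' j ≠ s c₀ j := by
        intro c' hc' hne' j he
        have : j ∈ shr s A c₀ := Finset.mem_filter.2 ⟨Finset.mem_univ _, c', hc', hne', he⟩
        rw [h0'] at this
        simp at this
      refine ⟨o, fun c hc c' hc' hcc j hj => ?_⟩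
      by_cases h1 : c = c₀
      · subst h1
        exact absurd hj.symm (hno c' hc' (Ne.symm hcc) j)
      · by_cases h2 : c' = c₀
        · subst h2
          exact absurd hj (hno c hc h1 j)
        · exact ho c (Finset.mem_erase.2 ⟨h1, hc⟩) c' (Finset.mem_erase.2 ⟨h2, hc'⟩) hcc j hj
    · -- a cluster with at most one shared slot
      have hex : ∃ c ∈ A, c ≠ c₀ ∧ (shr s A c).card ≤ 1 := by
        by_contra hcon
        push Not at hcon
        have h1 : ∀ c ∈ A.erase c₀, 2 ≤ (shr s A c).card := by
          intro c hc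
          have := hcon c (Finset.mem_erase.1 hc).2 (Finset.mem_erase.1 hc).1
          omega
        have h2 : 2 * (A.erase c₀).card ≤ ∑ c ∈ A.erase c₀, (shr s A c).card := by
          calc 2 * (A.erase c₀).card = ∑ c ∈ A.erase c₀, 2 := by
                rw [Finset.sum_const, smul_eq_mul, mul_comm]
            _ ≤ _ := Finset.sum_le_sum h1
        by_cases h3 : c₀ ∈ A
        · have h4 := Finset.add_sum_erase A (fun c => (shr s A c).card) h3
          have h5 := Finset.card_erase_of_mem h3
          have h6 : (shr s A c₀).card = 0 := by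
            have : 1 ≤ A.card := Finset.card_pos.2 hne
            omega
          exact h0 ⟨h3, Finset.card_eq_zero.1 h6⟩
        · rw [Finset.erase_eq_of_notMem h3] at h2
          omega
      obtain ⟨c, hc, hcc, hsh⟩ := hex
      have hcard := Finset.card_erase_of_mem hc
      obtain ⟨o, ho⟩ := ih (A.erase c) (by omega) (by omega)
      obtain ⟨j₀, hj₀⟩ : ∃ j₀ : Fin g, ∀ j ∈ shr s A c, j = j₀ := by
        by_cases he : (shr s A c).Nonempty
        · obtain ⟨j₀, hj₀⟩ := he
          exact ⟨j₀, fun j hj => Finset.card_le_one.1 hsh j hj j₀ hj₀⟩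
        · exact ⟨⟨0, hg⟩, fun j hj => absurd ⟨j, hj⟩ he⟩
      refine ⟨Function.update o c j₀, fun c1 hc1 c2 hc2 h12 j hj => ?_⟩
      by_cases h1 : c1 = c
      · subst h1
        left
        refine ⟨hcc, ?_⟩
        rw [Function.update_self]
        exact (hj₀ j (Finset.mem_filter.2 ⟨Finset.mem_univ _, c2, hc2, Ne.symm h12, hj.symm⟩)).symm
      · by_cases h2 : c2 = c
        · subst h2
          right
          refine ⟨hcc, ?_⟩
          rw [Function.update_self]
          exact (hj₀ j (Finset.mem_filter.2 ⟨Finset.mem_univ _, c1, hc1, h12, hj⟩)).symm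
        · rw [Function.update_of_ne h1, Function.update_of_ne h2]
          exact ho c1 (Finset.mem_erase.2 ⟨h1, hc1⟩) c2 (Finset.mem_erase.2 ⟨h2, hc2⟩) h12 j hj

end Pool.Agent.LT4
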