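import Pool.Agent.LT4.RouteC
import Pool.Agent.LT4.Order
import Pool.Agent.LT4.Inner

/-!
# [LT4-FinalC] the list, its length (helper1)
-/

set_option autoImplicit false

namespace Pool.Agent.LT4

/-- every permutation is the product of a list of transpositions -/
theorem exists_swaps {M : ℕ} (σ : Equiv.Perm (Fin M)) : ∃ L : List (Fin M × Fin M), (∀ c ∈ L, c.1 ≠ c.2) ∧
    (L.map fun c => Equiv.swap c.1 c.2).prod = σ := by
  refine Equiv.Perm.swap_induction_on σ ?_ ?_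
  · exact ⟨[], by simp, by simp⟩
  · rintro f a b hab ⟨L, hL, hf⟩
    refine ⟨(a, b) :: L, ?_, ?_⟩
    · intro c hc
      rcases List.mem_cons.1 hc with rfl | hc
      · exact hab
      · exact hL c hc
    · rw [List.map_cons, List.prod_cons, hf]

theorem exists_perm {M k : ℕ} {y z : Fin k → Fin M} (hy : Function.Injective y) (hz : Function.Injective z) :
    ∃ σ : Equiv.Perm (Fin M), ∀ i, σ (y i) = z i := by
  classical
  let e : {x // x ∈ Set.range y} ≃ {x // x ∈ Set.range z} :=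
    (Equiv.ofInjective y hy).symm.trans (Equiv.ofInjective z hz)
  refine ⟨e.extendSubtype, fun i => ?_⟩
  rw [Equiv.extendSubtype_apply_of_mem e (y i) ⟨i, rfl⟩]
  have h1 : (Equiv.ofInjective y hy).symm ⟨y i, ⟨i, rfl⟩⟩ = i := by
    rw [Equiv.symm_apply_eq]
    rfl
  change ((Equiv.ofInjective z hz) ((Equiv.ofInjective y hy).symm ⟨y i, ⟨i, rfl⟩⟩) : Fin M) = z i
  rw [h1]
  rfl

/-- a list which can apply every permutation -/
theorem exists_mid (M k : ℕ) : ∃ L : List (Fin M × Fin M), (∀ c ∈ L, c.1 ≠ c.2) ∧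
    ∀ y z : Fin k → Fin M, Function.Injective y → Function.Injective z → Rt L y z := by
  classical
  choose g hg1 hg2 using fun σ : Equiv.Perm (Fin M) => exists_swaps σ
  refine ⟨((Finset.univ : Finset (Equiv.Perm (Fin M))).toList.map g).flatten, ?_, ?_⟩
  · intro c hc
    rw [List.mem_flatten] at hc
    obtain ⟨l, hl, hcl⟩ := hc
    obtain ⟨σ, -, rfl⟩ := List.mem_map.1 hl
    exact hg1 σ c hcl
  · intro y z hy hz
    obtain ⟨σ, hσ⟩ := exists_perm hy hz
    refine ⟨g σ, List.sublist_flatten_of_mem (List.mem_map.2 ⟨σ, by simp, rfl⟩), fun i => ?_⟩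
    rw [hg2 σ]
    exact hσ i

section total

variable {k h g M N : ℕ}

theorem length_pass (h : ℕ) (s : Fin M → Fin g → Fin N) (j : Fin g) :
    (pass h (lv s j) (List.finRange N)).length = M + N * h := by
  unfold pass
  rw [List.length_flatten, List.map_map]
  have h1 : (List.length ∘ fun b => blk h (lv s j b)) = fun b => (Finset.univ.filter fun c => s c j = b).card + h := by
    funext b
    simp [blk, lv, Function.comp]
  rw [h1, ← Fin.sum_univ_def, Finset.sum_add_distrib, Finset.sum_const, Finset.card_univ, Fintype.card_fin,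
    smul_eq_mul]
  congr 1
  rw [← Finset.card_eq_sum_card_fiberwise (f := fun c => s c j) (s := Finset.univ) (t := Finset.univ)
    (fun _ _ => by simp), Finset.card_univ, Fintype.card_fin]

theorem length_passes (h : ℕ) (s : Fin M → Fin g → Fin N) (js : List (Fin g)) :
    (passes h s js).length = js.length * (M + N * h) := by
  induction js with
  | nil => simp [passes]
  | cons j js ih =>
    have h1 : passes h s (j :: js) = pass h (lv s j) (List.finRange N) ++ passes h s js := by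
      unfold passes
      rw [List.map_cons, List.flatten_cons]
    rw [h1, List.length_append, ih, length_pass, List.length_cons]
    ring

theorem length_innerL (h : ℕ) (I : List (Fin g × Fin g)) (cs : List (Fin M)) :
    (innerL h I cs).length = cs.length * I.length := by
  induction cs with
  | nil => simp [innerL]
  | cons c cs ih =>
    have h1 : innerL h I (c :: cs) = (I.map fun p => ((Sum.inr (c, p.1) : Fin (h + 1) ⊕ (Fin M × Fin g)),
        (Sum.inr (c, p.2) : Fin (h + 1) ⊕ (Fin M × Fin g)))) ++ innerL h I cs := by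
      unfold innerL
      rw [List.map_cons, List.flatten_cons]
    rw [h1, List.length_append, ih, List.length_map, List.length_cons]
    ring

theorem ne_inL (h : ℕ) {I : List (Fin g × Fin g)} (hI : ∀ c ∈ I, c.1 ≠ c.2) (s : Fin M → Fin g → Fin N) :
    ∀ c ∈ inL h I s, c.1 ≠ c.2 := by
  intro c hc
  rcases List.mem_append.1 hc with hc | hc
  · unfold passes at hc
    rw [List.mem_flatten] at hc
    obtain ⟨l, hl, hcl⟩ := hc
    obtain ⟨j, -, rfl⟩ := List.mem_map.1 hl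
    unfold pass at hcl
    rw [List.mem_flatten] at hcl
    obtain ⟨l, hl, hcl⟩ := hcl
    obtain ⟨b, -, rfl⟩ := List.mem_map.1 hl
    unfold blk at hcl
    rcases List.mem_append.1 hcl with h | h
    · obtain ⟨l, -, rfl⟩ := List.mem_map.1 h
      simp
    · obtain ⟨j, -, rfl⟩ := List.mem_map.1 h
      intro h
      exact Fin.succ_ne_zero j (Sum.inl_injective h).symm
  · unfold innerL at hc
    rw [List.mem_flatten] at hc
    obtain ⟨l, hl, hcl⟩ := hc
    obtain ⟨c', -, rfl⟩ := List.mem_map.1 hl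
    obtain ⟨p, hp, rfl⟩ := List.mem_map.1 hcl
    intro h
    exact hI p hp (Prod.ext_iff.1 (Sum.inr_injective h)).2

theorem total (hkh : k ≤ h) {I : List (Fin g × Fin g)} (hIne : ∀ c ∈ I, c.1 ≠ c.2) {r : ℕ} (hr : k < 2 * (r + 1))
    (hI : ∀ (o : Fin g) (T : Finset (Fin g)), T.card ≤ r → ∃ S : List (Fin g × Fin g), S.Sublist I ∧
      ∀ a ∈ T, (S.map fun c => Equiv.swap c.1 c.2).prod a ≠ o) :
    ∃ c : ℕ, ∀ (N M : ℕ) (_ : 0 < N) (s : Fin M → Fin g → Fin N),
    (∀ (A : Finset (Fin M)), A.card ≤ k → ∀ c₀ : Fin M, ∃ o : Fin M → Fin g, ∀ c ∈ A, ∀ c' ∈ A, c ≠ c' →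
      ∀ j, s c j = s c' j → (c ≠ c₀ ∧ o c = j) ∨ (c' ≠ c₀ ∧ o c' = j)) →
    ∃ L : List (Fin (h + 1 + M * g) × Fin (h + 1 + M * g)), (∀ c ∈ L, c.1 ≠ c.2) ∧
      Reaching k (h + 1 + M * g) L ∧ L.length = 2 * (g * (M + N * h) + M * I.length) + c := by
  obtain ⟨mid, hmid1, hmid2⟩ := exists_mid (h + 1) k
  refine ⟨mid.length, ?_⟩
  intro N M hN s hs
  set mid' : List ((Fin (h + 1) ⊕ (Fin M × Fin g)) × (Fin (h + 1) ⊕ (Fin M × Fin g))) :=
    mid.map fun c => (Sum.inl c.1, Sum.inl c.2) with hmid'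
  set T := ((inL h I s).reverse ++ mid') ++ inL h I s with hT
  have hin : ∀ c ∈ inL h I s, c.1 ≠ c.2 := ne_inL h hIne s
  have hTne : ∀ c ∈ T, c.1 ≠ c.2 := by
    intro c hc
    rcases List.mem_append.1 hc with h | h
    · rcases List.mem_append.1 h with h | h
      · exact hin c (List.mem_reverse.1 h)
      · obtain ⟨d, hd, rfl⟩ := List.mem_map.1 h
        exact fun h => hmid1 d hd (Sum.inl_injective h)
    · exact hin c h
  have hTr : ∀ x z : Fin k → Fin (h + 1) ⊕ (Fin M × Fin g), Function.Injective x → Function.Injective z → Rt T x z := by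
    intro x z hx hz
    obtain ⟨y₁, hy₁, hr₁⟩ := in_ok hkh hN I hr hI s hs hx
    obtain ⟨y₂, hy₂, hr₂⟩ := in_ok hkh hN I hr hI s hs hz
    have h3 : Rt mid' (fun i => Sum.inl (y₁ i)) (fun i => Sum.inl (y₂ i)) :=
      Rt.map (W' := Fin (h + 1) ⊕ (Fin M × Fin g)) Sum.inl Sum.inl_injective (hmid2 y₁ y₂ hy₁ hy₂)
    exact Rt.append hr₁ (Rt.append h3 hr₂.reverse)
  let e : Fin (h + 1) ⊕ (Fin M × Fin g) ≃ Fin (h + 1 + M * g) :=
    (Equiv.sumCongr (Equiv.refl _) finProdFinEquiv).trans finSumFinEquiv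
  refine ⟨T.map fun c => (e c.1, e c.2), ?_, ?_, ?_⟩
  · intro c hc
    obtain ⟨d, hd, rfl⟩ := List.mem_map.1 hc
    exact fun h => hTne d hd (e.injective h)
  · intro x z hx hz
    have h1 := (hTr (fun i => e.symm (x i)) (fun i => e.symm (z i)) (e.symm.injective.comp hx)
      (e.symm.injective.comp hz)).map e e.injective
    simp only [Equiv.apply_symm_apply] at h1
    exact h1
  · rw [List.length_map, hT, List.length_append, List.length_append, List.length_reverse, hmid', List.length_map]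
    unfold inL
    rw [List.length_append, length_passes, length_innerL, List.length_finRange, List.length_finRange]
    ring

end total

theorem final_aux (k g r : ℕ) (hg : 1 ≤ g) (hr : k < 2 * (r + 1)) {I : List (Fin g × Fin g)}
    (hIlen : I.length + 1 = g) (hIne : ∀ c ∈ I, c.1 ≠ c.2)
    (hI : ∀ (o : Fin g) (T : Finset (Fin g)), T.card ≤ r → ∃ S : List (Fin g × Fin g), S.Sublist I ∧
      ∀ a ∈ T, (S.map fun c => Equiv.swap c.1 c.2).prod a ≠ o)
    (hforest : ∀ D : ℕ, 1 ≤ D → ∃ C : ℕ, ∀ N M : ℕ, M ≤ (N - C) * D →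
      ∃ s : Fin M → Fin g → Fin N, ∀ A : Finset (Fin M), A.Nonempty → A.card ≤ k →
        (g - 1) * A.card + 1 ≤ (slots s A).card) {ε : ℝ} (hε : 0 < ε) :
    ∃ n₀ : ℕ, ∀ n ≥ n₀, ∃ L : List (Fin n × Fin n), (∀ c ∈ L, c.1 ≠ c.2) ∧ Reaching k n L ∧
      (L.length : ℝ) ≤ (4 - 2 / g + ε) * n := by
  classical
  have hgR : (1 : ℝ) ≤ g := by exact_mod_cast hg
  choose c hc using fun ρ : ℕ => total (h := k + ρ) (by omega : k ≤ k + ρ) hIne hr hI
  obtain ⟨cm, hcm⟩ : ∃ cm, cm = ∑ ρ ∈ Finset.range g, c ρ := ⟨_, rfl⟩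
  have hcle : ∀ ρ, ρ < g → c ρ ≤ cm := by
    intro ρ hρ
    rw [hcm]
    exact Finset.single_le_sum (f := c) (fun _ _ => Nat.zero_le _) (Finset.mem_range.2 hρ)
  obtain ⟨D, hD⟩ := exists_nat_ge (4 * ((k : ℝ) + g) / ε + 1)
  have hD1 : (1 : ℝ) ≤ D := by
    have : 0 ≤ 4 * ((k : ℝ) + g) / ε := by positivity
    linarith
  have hD1' : 1 ≤ D := by exact_mod_cast hD1
  have hDpos : (0 : ℝ) < D := by linarith
  obtain ⟨C, hC⟩ := hforest D hD1'
  obtain ⟨n₁, hn₁⟩ := exists_nat_ge ((2 * g * ((1 + C) * (k + g)) + cm) / (ε / 2) : ℝ)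
  refine ⟨n₁ + (k + 1), fun n hn => ?_⟩
  obtain ⟨ρ, M, hρ, rfl⟩ : ∃ ρ M, ρ < g ∧ n = k + ρ + 1 + M * g := by
    refine ⟨(n - (k + 1)) % g, (n - (k + 1)) / g, Nat.mod_lt _ (by omega), ?_⟩
    have h1 := Nat.div_add_mod (n - (k + 1)) g
    rw [mul_comm] at h1
    omega
  obtain ⟨q, hq⟩ : ∃ q, q = M / D := ⟨_, rfl⟩
  obtain ⟨N, hNdef⟩ : ∃ N, N = q + 1 + C := ⟨_, rfl⟩
  have hNm : M ≤ (N - C) * D := by
    have h1 : N - C = q + 1 := by omega
    have h2 := Nat.div_add_mod M D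
    have h3 := Nat.mod_lt M (show D > 0 by omega)
    rw [← hq] at h2
    rw [h1, add_mul, one_mul, mul_comm q D]
    omega
  obtain ⟨s, hs⟩ := hC N M hNm
  obtain ⟨L, hL1, hL2, hL3⟩ := hc ρ N M (by omega) s (fun A hA c₀ => order hg s hs A hA c₀)
  refine ⟨L, hL1, hL2, ?_⟩
  have hlen : (L.length : ℝ) = 2 * (g * (M + N * (k + ρ)) + M * (g - 1)) + c ρ := by
    rw [hL3]
    have h1 : (I.length : ℝ) = g - 1 := by
      have h2 : ((I.length + 1 : ℕ) : ℝ) = g := by rw [hIlen]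
      push_cast at h2
      linarith
    push_cast
    rw [h1]
  have hk0 : (0 : ℝ) ≤ k := Nat.cast_nonneg k
  have hM0 : (0 : ℝ) ≤ M := Nat.cast_nonneg M
  have hρ0 : (0 : ℝ) ≤ ρ := Nat.cast_nonneg ρ
  have hρg : (ρ : ℝ) ≤ g := by exact_mod_cast hρ.le
  have hC0 : (0 : ℝ) ≤ C := Nat.cast_nonneg C
  have hcR : (c ρ : ℝ) ≤ cm := by exact_mod_cast hcle ρ hρ
  have hNR : (N : ℝ) ≤ M / D + 1 + C := by
    rw [hNdef]
    push_cast
    have h1 : ((M / D : ℕ) : ℝ) ≤ (M : ℝ) / (D : ℝ) := Nat.cast_div_le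
    rw [← hq] at h1
    linarith
  have hN0 : (0 : ℝ) ≤ N := Nat.cast_nonneg N
  -- the hub gates
  have h1 : 2 * (g : ℝ) * (N * (k + ρ)) ≤ 2 * g * (k + g) * M / D + 2 * g * ((1 + C) * (k + g)) := by
    have h2 : (N : ℝ) * (k + ρ) ≤ (M / D + 1 + C) * (k + g) := by
      apply mul_le_mul hNR (by linarith) (by positivity)
      positivity
    have h3 : 2 * (g : ℝ) * (k + g) * M / D + 2 * g * ((1 + C) * (k + g)) = 2 * g * ((M / D + 1 + C) * (k + g)) := by
      field_simp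
      ring
    rw [h3]
    exact mul_le_mul_of_nonneg_left h2 (by positivity)
  have h2 : 2 * (g : ℝ) * (k + g) * M / D ≤ ε / 2 * (M * g) := by
    rw [div_le_iff₀ hDpos]
    have h3 : 4 * ((k : ℝ) + g) / ε ≤ D := by linarith
    rw [div_le_iff₀ hε] at h3
    have h4 : 0 ≤ (M : ℝ) * g := by positivity
    nlinarith [mul_le_mul_of_nonneg_left h3 h4]
  have h3 : 2 * (g : ℝ) * ((1 + C) * (k + g)) + cm ≤ ε / 2 * (k + ρ + 1 + M * g) := by
    rw [div_le_iff₀ (by positivity)] at hn₁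
    have h4 : (n₁ : ℝ) ≤ k + ρ + 1 + M * g := by
      have h5 : n₁ ≤ k + ρ + 1 + M * g := by omega
      exact_mod_cast h5
    nlinarith
  have h4 : 2 * ((g : ℝ) * M + M * (g - 1)) = (4 - 2 / g) * (M * g) := by
    field_simp
    ring
  have h5 : (0 : ℝ) ≤ 4 - 2 / g := by
    have : 2 / (g : ℝ) ≤ 2 := by
      rw [div_le_iff₀ (by linarith)]
      linarith
    linarith
  have h6 : (4 - 2 / (g : ℝ)) * (M * g) ≤ (4 - 2 / g) * (k + ρ + 1 + M * g) :=
    mul_le_mul_of_nonneg_left (by linarith) h5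
  have h7 : ε / 2 * (M * (g : ℝ)) ≤ ε / 2 * (k + ρ + 1 + M * g) :=
    mul_le_mul_of_nonneg_left (by linarith) (by positivity)
  rw [hlen]
  push_cast
  have h8 : 2 * ((g : ℝ) * (M + N * (k + ρ)) + M * (g - 1)) + c ρ =
      2 * ((g : ℝ) * M + M * (g - 1)) + 2 * g * (N * (k + ρ)) + c ρ := by ring
  rw [h8, h4]
  have h9 : (4 - 2 / (g : ℝ) + ε) * (k + ρ + 1 + M * g) = (4 - 2 / g) * (k + ρ + 1 + M * g) +
      (ε / 2 * (k + ρ + 1 + M * g) + ε / 2 * (k + ρ + 1 + M * g)) := by ring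
  rw [h9]
  linarith

/-- the asymptotic statement, from the slots -/
theorem final_of (k : ℕ) (hforest : ∀ D : ℕ, 1 ≤ D → ∃ C : ℕ, ∀ N M : ℕ, M ≤ (N - C) * D →
      ∃ s : Fin M → Fin (2 ^ (k / 2)) → Fin N, ∀ A : Finset (Fin M), A.Nonempty → A.card ≤ k →
        (2 ^ (k / 2) - 1) * A.card + 1 ≤ (slots s A).card) {ε : ℝ} (hε : 0 < ε) :
    ∃ n₀ : ℕ, ∀ n ≥ n₀, ∃ L : List (Fin n × Fin n), (∀ c ∈ L, c.1 ≠ c.2) ∧ Reaching k n L ∧
      (L.length : ℝ) ≤ (4 - 2 / 2 ^ (k / 2) + ε) * n := by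
  obtain ⟨I, hIlen, hIne, hI⟩ := inner (k / 2)
  have h1 := final_aux k (2 ^ (k / 2)) (k / 2) (Nat.one_le_two_pow) (by omega) hIlen hIne hI hforest hε
  push_cast at h1
  exact h1

end Pool.Agent.LT4
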