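import Pool.Agent.LT4.Defs

/-!
# Graphs with few vertices in which any `k` edges form a forest
-/

set_option autoImplicit false

namespace Pool.Agent.LT4

open Finset

section
variable {V : Type} [DecidableEq V]

/-- endpoints -/
def en (e : ℕ → V × V) (A : Finset ℕ) : Finset V := A.biUnion fun l => {(e l).1, (e l).2}

theorem mem_en {e : ℕ → V × V} {A : Finset ℕ} {v : V} : v ∈ en e A ↔ ∃ l ∈ A, v = (e l).1 ∨ v = (e l).2 := by
  unfold en
  simp only [mem_biUnion, mem_insert, mem_singleton]

theorem card_en_le (e : ℕ → V × V) (A : Finset ℕ) : (en e A).card ≤ A.card * 2 :=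
  card_biUnion_le_card_mul _ _ _ fun _ _ => card_le_two

/-- the pairs with the end `v` -/
def inc (e : ℕ → V × V) (m : ℕ) (v : V) : Finset ℕ := (range m).filter (fun l => (e l).1 = v ∨ (e l).2 = v)

/-- one step -/
def stp (e : ℕ → V × V) (m : ℕ) (Y : Finset V) : Finset V :=
  Y ∪ en e ((range m).filter (fun l => (e l).1 ∈ Y ∨ (e l).2 ∈ Y))

theorem sub_stp (e : ℕ → V × V) (m : ℕ) (Y : Finset V) : Y ⊆ stp e m Y := subset_union_left

theorem stp_mono (e : ℕ → V × V) (m : ℕ) : Monotone (stp e m) := by
  intro Y Y' h
  have h : Y ⊆ Y' := h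
  refine union_subset_union h ?_
  intro v hv
  rw [mem_en] at hv ⊢
  obtain ⟨l, hl, h1⟩ := hv
  rw [mem_filter] at hl
  refine ⟨l, mem_filter.2 ⟨hl.1, ?_⟩, h1⟩
  rcases hl.2 with h2 | h2
  · exact Or.inl (h h2)
  · exact Or.inr (h h2)

theorem sub_iter (e : ℕ → V × V) (m : ℕ) (t : ℕ) (Y : Finset V) : Y ⊆ (stp e m)^[t] Y := by
  induction t with
  | zero => exact Subset.refl _
  | succ t ih =>
    rw [Function.iterate_succ_apply']
    exact ih.trans (sub_stp e m _)

theorem iter_le (e : ℕ → V × V) (m : ℕ) {s t : ℕ} (h : s ≤ t) (Y : Finset V) : (stp e m)^[s] Y ⊆ (stp e m)^[t] Y := by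
  obtain ⟨r, rfl⟩ := Nat.exists_eq_add_of_le h
  rw [add_comm, Function.iterate_add_apply]
  exact sub_iter e m r _

theorem card_stp {e : ℕ → V × V} {m D : ℕ} (h : ∀ v, (inc e m v).card ≤ D) (Y : Finset V) :
    (stp e m Y).card ≤ (2 * D + 1) * Y.card := by
  have h1 : ((range m).filter (fun l => (e l).1 ∈ Y ∨ (e l).2 ∈ Y)).card ≤ Y.card * D := by
    refine (card_le_card ?_).trans (card_biUnion_le_card_mul Y (inc e m) D fun v _ => h v)
    intro l hl
    rw [mem_filter] at hl
    rw [mem_biUnion]
    rcases hl.2 with h2 | h2
    · exact ⟨_, h2, mem_filter.2 ⟨hl.1, Or.inl rfl⟩⟩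
    · exact ⟨_, h2, mem_filter.2 ⟨hl.1, Or.inr rfl⟩⟩
  have h2 := card_union_le Y (en e ((range m).filter (fun l => (e l).1 ∈ Y ∨ (e l).2 ∈ Y)))
  have h3 := card_en_le e ((range m).filter (fun l => (e l).1 ∈ Y ∨ (e l).2 ∈ Y))
  have h4 : (2 * D + 1) * Y.card = Y.card + Y.card * D * 2 := by ring
  rw [h4]
  unfold stp
  omega

theorem card_iter {e : ℕ → V × V} {m D : ℕ} (h : ∀ v, (inc e m v).card ≤ D) (t : ℕ) (Y : Finset V) :
    ((stp e m)^[t] Y).card ≤ (2 * D + 1) ^ t * Y.card := by
  induction t with
  | zero => simp
  | succ t ih =>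
    rw [Function.iterate_succ_apply', pow_succ, mul_comm _ (2 * D + 1), mul_assoc]
    exact (card_stp h _).trans (Nat.mul_le_mul_left _ ih)

/-- a closed set around `Y` -/
theorem exists_closed (e : ℕ → V × V) (m : ℕ) : ∀ (t : ℕ) (B : Finset ℕ), B.card = t → B ⊆ range m → ∀ Y : Finset V,
    ∃ X, Y ⊆ X ∧ X ⊆ (stp e m)^[t] Y ∧ ∀ l ∈ B, ((e l).1 ∈ X ↔ (e l).2 ∈ X) := by
  intro t
  induction t with
  | zero =>
    intro B hB _ Y
    rw [card_eq_zero] at hB
    subst hB
    exact ⟨Y, Subset.refl _, Subset.refl _, by simp⟩
  | succ t ih =>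
    intro B hB hBm Y
    by_cases hc : ∀ l ∈ B, ((e l).1 ∈ Y ↔ (e l).2 ∈ Y)
    · exact ⟨Y, Subset.refl _, sub_iter e m _ _, hc⟩
    · push Not at hc
      obtain ⟨l, hl, hl2⟩ := hc
      have hor : (e l).1 ∈ Y ∨ (e l).2 ∈ Y := by
        rcases hl2 with h | h
        · exact Or.inl h.1
        · exact Or.inr h.2
      obtain ⟨X, h1, h2, h3⟩ := ih (B.erase l) (by rw [card_erase_of_mem hl, hB]; rfl) ((erase_subset _ _).trans hBm)
        (stp e m Y)
      have hle : ∀ v, v = (e l).1 ∨ v = (e l).2 → v ∈ X := by
        intro v hv
        apply h1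
        unfold stp
        rw [mem_union]
        right
        rw [mem_en]
        exact ⟨l, mem_filter.2 ⟨hBm hl, hor⟩, hv⟩
      refine ⟨X, (sub_stp e m Y).trans h1, ?_, ?_⟩
      · rw [Function.iterate_succ_apply]
        exact h2
      · intro l' hl'
        by_cases h4 : l' = l
        · subst h4
          exact ⟨fun _ => hle _ (Or.inr rfl), fun _ => hle _ (Or.inl rfl)⟩
        · exact h3 l' (mem_erase.2 ⟨h4, hl'⟩)

/-- the greedy construction -/
theorem greedy [Fintype V] [Nonempty V] (K D : ℕ) (hK : 1 ≤ K) (m : ℕ)
    (hm : 2 * m ≤ (Fintype.card V - (2 * D + 1) ^ K) * D) :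
    ∃ e : ℕ → V × V, (∀ v, (inc e m v).card ≤ D) ∧
      ∀ A ⊆ range m, A.Nonempty → A.card ≤ K → A.card + 1 ≤ (en e A).card := by
  induction m with
  | zero =>
    obtain ⟨v⟩ := ‹Nonempty V›
    refine ⟨fun _ => (v, v), fun w => by simp [inc], fun A hA hne _ => ?_⟩
    rw [range_zero, subset_empty] at hA
    exact absurd hA hne.ne_empty
  | succ m ih =>
    obtain ⟨e, h1, h2⟩ := ih (by omega)
    -- vertices of small degree
    have hsum : (univ.filter (fun v : V => ¬ (inc e m v).card < D)).card * D ≤ 2 * m := by
      have h3 : ∑ v : V, (inc e m v).card ≤ 2 * m := by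
        have h4 : ∀ v : V, (inc e m v).card = ∑ l ∈ range m, if (e l).1 = v ∨ (e l).2 = v then 1 else 0 := by
          intro v
          unfold inc
          rw [card_filter]
        rw [sum_congr rfl fun v _ => h4 v, sum_comm]
        have h5 : ∀ l ∈ range m, (∑ v : V, if (e l).1 = v ∨ (e l).2 = v then 1 else 0) ≤ 2 := by
          intro l _
          rw [← card_filter]
          refine (card_le_card (t := {(e l).1, (e l).2}) ?_).trans card_le_two
          intro v hv
          rw [mem_filter] at hv
          rw [mem_insert, mem_singleton]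
          rcases hv.2 with h | h
          · exact Or.inl h.symm
          · exact Or.inr h.symm
        refine (sum_le_sum h5).trans ?_
        rw [sum_const, card_range, smul_eq_mul, mul_comm]
      refine le_trans ?_ h3
      rw [← smul_eq_mul, ← sum_const]
      refine (sum_le_sum (f := fun _ => D) (g := fun v => (inc e m v).card) ?_).trans
        (sum_le_sum_of_subset (subset_univ _))
      intro v hv
      rw [mem_filter, not_lt] at hv
      exact hv.2
    obtain ⟨Sm, hSm⟩ : ∃ Sm, Sm = univ.filter (fun v : V => (inc e m v).card < D) := ⟨_, rfl⟩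
    have hbig : (2 * D + 1) ^ K < Sm.card := by
      have h3 := card_filter_add_card_filter_not (s := (univ : Finset V)) (fun v : V => (inc e m v).card < D)
      rw [card_univ, ← hSm] at h3
      have h4 : (univ.filter (fun v : V => ¬ (inc e m v).card < D)).card < Fintype.card V - (2 * D + 1) ^ K := by
        by_contra hcon
        have h5 := Nat.mul_le_mul_right D (not_lt.1 hcon)
        omega
      omega
    obtain ⟨u, hu⟩ : Sm.Nonempty := card_pos.1 (by omega)
    obtain ⟨Bl, hBl⟩ : ∃ Bl, Bl = (stp e m)^[K] {u} := ⟨_, rfl⟩
    obtain ⟨v, hv, hvB⟩ : ∃ v ∈ Sm, v ∉ Bl := by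
      by_contra hcon
      push Not at hcon
      have h3 : Sm ⊆ Bl := hcon
      have h4 := card_le_card h3
      have h5 := card_iter h1 K {u}
      rw [card_singleton, mul_one, ← hBl] at h5
      omega
    have huB : u ∈ Bl := by
      rw [hBl]
      exact sub_iter e m K {u} (mem_singleton_self u)
    have huv : u ≠ v := by
      rintro rfl
      exact hvB huB
    rw [hSm, mem_filter] at hu hv
    obtain ⟨e', he'⟩ : ∃ e', e' = Function.update e m (u, v) := ⟨_, rfl⟩
    have hm' : e' m = (u, v) := by rw [he']; simp
    have hlt : ∀ l, l ∈ range m → e' l = e l := by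
      intro l hl
      rw [he', Function.update_of_ne]
      rintro rfl
      simp at hl
    refine ⟨e', ?_, ?_⟩
    · intro w
      have h3 : inc e' (m + 1) w ⊆ inc e m w ∪ (if w = u ∨ w = v then {m} else ∅) := by
        intro l hl
        unfold inc at hl
        rw [mem_filter, mem_range, Nat.lt_succ_iff_lt_or_eq] at hl
        rw [mem_union]
        obtain ⟨h4 | h4, h5⟩ := hl
        · left
          rw [hlt l (mem_range.2 h4)] at h5
          exact mem_filter.2 ⟨mem_range.2 h4, h5⟩
        · right
          subst h4
          rw [hm'] at h5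
          rw [if_pos (by rcases h5 with h | h; exacts [Or.inl h.symm, Or.inr h.symm])]
          exact mem_singleton_self _
      refine (card_le_card h3).trans ((card_union_le _ _).trans ?_)
      by_cases hw : w = u ∨ w = v
      · rw [if_pos hw, card_singleton]
        rcases hw with rfl | rfl
        · exact hu.2
        · exact hv.2
      · rw [if_neg hw, card_empty, add_zero]
        exact h1 w
    · intro A hA hne hAK
      have hen : ∀ B ⊆ range m, en e' B = en e B := by
        intro B hB
        unfold en
        refine biUnion_congr rfl fun l hl => ?_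
        rw [hlt l (hB hl)]
      by_cases hmA : m ∈ A
      · obtain ⟨B, hB⟩ : ∃ B, B = A.erase m := ⟨_, rfl⟩
        have hBm : B ⊆ range m := by
          intro l hl
          rw [hB, mem_erase] at hl
          have := mem_range.1 (hA hl.2)
          exact mem_range.2 (by omega)
        have hBc : B.card + 1 = A.card := by rw [hB]; exact card_erase_add_one hmA
        have hins : A = insert m B := by rw [hB, insert_erase hmA]
        have hends : en e' A = insert u (insert v (en e B)) := by
          rw [hins]
          unfold en
          rw [biUnion_insert, hm']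
          have := hen B hBm
          unfold en at this
          rw [this]
          ext w
          simp only [mem_union, mem_insert, mem_singleton]
          tauto
        rw [hends, ← hBc]
        by_cases hBne : B.Nonempty
        · have h3 := h2 B hBm hBne (by omega)
          by_cases huE : u ∈ en e B
          · by_cases hvE : v ∈ en e B
            · rw [insert_eq_of_mem (mem_insert_of_mem huE), insert_eq_of_mem hvE]
              obtain ⟨X, hX1, hX2, hX3⟩ := exists_closed e m B.card B rfl hBm {u}
              have huX : u ∈ X := hX1 (mem_singleton_self u)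
              have hvX : v ∉ X := by
                intro h
                apply hvB
                rw [hBl]
                exact iter_le e m (by omega) _ (hX2 h)
              obtain ⟨B1, hB1⟩ : ∃ B1, B1 = B.filter (fun l => (e l).1 ∈ X) := ⟨_, rfl⟩
              obtain ⟨B2, hB2⟩ : ∃ B2, B2 = B.filter (fun l => ¬ (e l).1 ∈ X) := ⟨_, rfl⟩
              have hB12 : B1.card + B2.card = B.card := by
                rw [hB1, hB2]
                exact card_filter_add_card_filter_not _
              have hs1 : B1 ⊆ B := by rw [hB1]; exact filter_subset _ _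
              have hs2 : B2 ⊆ B := by rw [hB2]; exact filter_subset _ _
              have hne1 : B1.Nonempty := by
                rw [mem_en] at huE
                obtain ⟨l, hl, h4⟩ := huE
                refine ⟨l, ?_⟩
                rw [hB1, mem_filter]
                refine ⟨hl, ?_⟩
                rcases h4 with h4 | h4
                · rw [← h4]; exact huX
                · exact (hX3 l hl).2 (by rw [← h4]; exact huX)
              have hne2 : B2.Nonempty := by
                rw [mem_en] at hvE
                obtain ⟨l, hl, h4⟩ := hvE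
                refine ⟨l, ?_⟩
                rw [hB2, mem_filter]
                refine ⟨hl, fun h5 => ?_⟩
                rcases h4 with h4 | h4
                · exact hvX (by rw [h4]; exact h5)
                · exact hvX (by rw [h4]; exact (hX3 l hl).1 h5)
              have h5 := h2 B1 (hs1.trans hBm) hne1 (by omega)
              have h6 := h2 B2 (hs2.trans hBm) hne2 (by omega)
              have hdis : Disjoint (en e B1) (en e B2) := by
                rw [disjoint_left]
                intro w hw1 hw2
                rw [mem_en] at hw1 hw2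
                obtain ⟨l1, hl1, hw1⟩ := hw1
                obtain ⟨l2, hl2, hw2⟩ := hw2
                rw [hB1, mem_filter] at hl1
                rw [hB2, mem_filter] at hl2
                have hwX : w ∈ X := by
                  rcases hw1 with h | h
                  · rw [h]; exact hl1.2
                  · rw [h]; exact (hX3 l1 hl1.1).1 hl1.2
                rcases hw2 with h | h
                · exact hl2.2 (by rw [← h]; exact hwX)
                · exact hl2.2 ((hX3 l2 hl2.1).2 (by rw [← h]; exact hwX))
              have hsub : en e B1 ∪ en e B2 ⊆ en e B := by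
                intro w hw
                rw [mem_union, mem_en, mem_en] at hw
                rw [mem_en]
                rcases hw with ⟨l, hl, h⟩ | ⟨l, hl, h⟩
                · exact ⟨l, hs1 hl, h⟩
                · exact ⟨l, hs2 hl, h⟩
              have h7 := card_le_card hsub
              rw [card_union_of_disjoint hdis] at h7
              omega
            · rw [insert_eq_of_mem (mem_insert_of_mem huE), card_insert_of_notMem hvE]
              omega
          · rw [card_insert_of_notMem (by rw [mem_insert, not_or]; exact ⟨huv, huE⟩)]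
            have := card_le_card (subset_insert v (en e B))
            omega
        · rw [not_nonempty_iff_eq_empty] at hBne
          rw [hBne]
          have h3 : en e (∅ : Finset ℕ) = ∅ := rfl
          rw [h3, card_empty]
          have h4 : ({u, v} : Finset V).card = 2 := card_pair huv
          exact h4.ge
      · have hAm : A ⊆ range m := by
          intro l hl
          have h3 := mem_range.1 (hA hl)
          rw [mem_range]
          have : l ≠ m := by rintro rfl; exact hmA hl
          omega
        rw [hen A hAm]
        exact h2 A hAm hne hAK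

end

theorem forest (k D : ℕ) (hD : 1 ≤ D) : ∃ C : ℕ, ∀ N m : ℕ, 2 * m ≤ (N - C) * D → ∃ s : Fin m → Fin N × Fin N,
    ∀ A : Finset (Fin m), A.Nonempty → A.card ≤ k → A.card + 1 ≤ (ends s A).card := by
  refine ⟨(2 * D + 1) ^ (max k 1), fun N m hm => ?_⟩
  rcases Nat.eq_zero_or_pos N with rfl | hN
  · have hm0 : m = 0 := by
      rw [Nat.zero_sub, zero_mul] at hm
      omega
    subst hm0
    exact ⟨fun i => i.elim0, fun A hA => by
      obtain ⟨i, _⟩ := hA
      exact i.elim0⟩
  · have : Nonempty (Fin N) := ⟨⟨0, hN⟩⟩
    obtain ⟨e, -, h2⟩ := greedy (V := Fin N) (max k 1) D (le_max_right _ _) m (by rw [Fintype.card_fin]; exact hm)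
    refine ⟨fun i => e i, fun A hA hAk => ?_⟩
    have h3 := h2 (A.map Fin.valEmbedding) (by
      intro l hl
      rw [mem_map] at hl
      obtain ⟨i, -, rfl⟩ := hl
      exact mem_range.2 i.2) (hA.map) (by rw [card_map]; exact hAk.trans (le_max_left _ _))
    rw [card_map] at h3
    refine h3.trans (card_le_card ?_)
    intro w hw
    rw [mem_en] at hw
    obtain ⟨l, hl, h⟩ := hw
    rw [mem_map] at hl
    obtain ⟨i, hi, rfl⟩ := hl
    unfold ends
    rw [mem_biUnion]
    refine ⟨i, hi, ?_⟩
    rw [mem_insert, mem_singleton]
    exact h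

end Pool.Agent.LT4
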