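import Pool.Agent.LT4.Defs

/-!
# Partite hypergraphs with few vertices in which any `k` edges form a forest
-/

set_option autoImplicit false

namespace Pool.Agent.LT4

open Finset

section
variable {V : Type} [DecidableEq V] {g : ℕ}

/-- the slots of the clusters in `A` -/
def sl (s : ℕ → Fin g → V) (A : Finset ℕ) : Finset (Fin g × V) := A.biUnion fun c => univ.image fun j => (j, s c j)

theorem mem_sl {s : ℕ → Fin g → V} {A : Finset ℕ} {v : Fin g × V} : v ∈ sl s A ↔ ∃ c ∈ A, ∃ j, (j, s c j) = v := by
  unfold sl
  simp only [mem_biUnion, mem_image, mem_univ, true_and]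

theorem card_sl_le (s : ℕ → Fin g → V) (A : Finset ℕ) : (sl s A).card ≤ A.card * g := by
  refine card_biUnion_le_card_mul _ _ _ fun c _ => ?_
  refine card_image_le.trans ?_
  rw [card_univ, Fintype.card_fin]

/-- the clusters with the slot `v` -/
def incG (s : ℕ → Fin g → V) (m : ℕ) (v : Fin g × V) : Finset ℕ := (range m).filter (fun c => s c v.1 = v.2)

/-- one step -/
def stpG (s : ℕ → Fin g → V) (m : ℕ) (Y : Finset (Fin g × V)) : Finset (Fin g × V) :=
  Y ∪ sl s ((range m).filter (fun c => ∃ j, (j, s c j) ∈ Y))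

theorem sub_stpG (s : ℕ → Fin g → V) (m : ℕ) (Y : Finset (Fin g × V)) : Y ⊆ stpG s m Y := subset_union_left

theorem sub_iterG (s : ℕ → Fin g → V) (m : ℕ) (t : ℕ) (Y : Finset (Fin g × V)) : Y ⊆ (stpG s m)^[t] Y := by
  induction t with
  | zero => exact Subset.refl _
  | succ t ih =>
    rw [Function.iterate_succ_apply']
    exact ih.trans (sub_stpG s m _)

theorem iter_leG (s : ℕ → Fin g → V) (m : ℕ) {a t : ℕ} (h : a ≤ t) (Y : Finset (Fin g × V)) :
    (stpG s m)^[a] Y ⊆ (stpG s m)^[t] Y := by
  obtain ⟨r, rfl⟩ := Nat.exists_eq_add_of_le h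
  rw [add_comm, Function.iterate_add_apply]
  exact sub_iterG s m r _

theorem card_stpG {s : ℕ → Fin g → V} {m D : ℕ} (h : ∀ v, (incG s m v).card ≤ D) (Y : Finset (Fin g × V)) :
    (stpG s m Y).card ≤ (1 + D * g) * Y.card := by
  have h1 : ((range m).filter (fun c => ∃ j, (j, s c j) ∈ Y)).card ≤ Y.card * D := by
    refine (card_le_card ?_).trans (card_biUnion_le_card_mul Y (incG s m) D fun v _ => h v)
    intro c hc
    rw [mem_filter] at hc
    obtain ⟨hc1, j, hj⟩ := hc
    rw [mem_biUnion]
    exact ⟨_, hj, mem_filter.2 ⟨hc1, rfl⟩⟩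
  have h2 := card_union_le Y (sl s ((range m).filter (fun c => ∃ j, (j, s c j) ∈ Y)))
  have h3 := card_sl_le s ((range m).filter (fun c => ∃ j, (j, s c j) ∈ Y))
  have h4 : (1 + D * g) * Y.card = Y.card + Y.card * D * g := by ring
  have h5 := Nat.mul_le_mul_right g h1
  rw [h4]
  unfold stpG
  omega

theorem card_iterG {s : ℕ → Fin g → V} {m D : ℕ} (h : ∀ v, (incG s m v).card ≤ D) (t : ℕ) (Y : Finset (Fin g × V)) :
    ((stpG s m)^[t] Y).card ≤ (1 + D * g) ^ t * Y.card := by
  induction t with
  | zero => simp
  | succ t ih =>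
    rw [Function.iterate_succ_apply', pow_succ, mul_comm _ (1 + D * g), mul_assoc]
    exact (card_stpG h _).trans (Nat.mul_le_mul_left _ ih)

/-- a closed set around `Y` -/
theorem exists_closedG (s : ℕ → Fin g → V) (m : ℕ) : ∀ (t : ℕ) (B : Finset ℕ), B.card = t → B ⊆ range m →
    ∀ Y : Finset (Fin g × V), ∃ X, Y ⊆ X ∧ X ⊆ (stpG s m)^[t] Y ∧
      ∀ c ∈ B, (∀ j, (j, s c j) ∈ X) ∨ (∀ j, (j, s c j) ∉ X) := by
  intro t
  induction t with
  | zero =>
    intro B hB _ Y
    rw [card_eq_zero] at hB
    subst hB
    exact ⟨Y, Subset.refl _, Subset.refl _, by simp⟩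
  | succ t ih =>
    intro B hB hBm Y
    by_cases hc : ∀ c ∈ B, (∀ j, (j, s c j) ∈ Y) ∨ (∀ j, (j, s c j) ∉ Y)
    · exact ⟨Y, Subset.refl _, sub_iterG s m _ _, hc⟩
    · push Not at hc
      obtain ⟨c, hc, -, hor⟩ := hc
      obtain ⟨X, h1, h2, h3⟩ := ih (B.erase c) (by rw [card_erase_of_mem hc, hB]; rfl) ((erase_subset _ _).trans hBm)
        (stpG s m Y)
      refine ⟨X, (sub_stpG s m Y).trans h1, ?_, ?_⟩
      · rw [Function.iterate_succ_apply]
        exact h2
      · intro c' hc'
        by_cases h4 : c' = c
        · subst h4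
          left
          intro j
          apply h1
          unfold stpG
          rw [mem_union]
          right
          rw [mem_sl]
          exact ⟨c', mem_filter.2 ⟨hBm hc', hor⟩, j, rfl⟩
        · exact h3 c' (mem_erase.2 ⟨h4, hc'⟩)

/-- the slots of old clusters and new slots -/
theorem peel {s : ℕ → Fin g → V} {m K : ℕ} {A : Finset ℕ} (hA : A ⊆ range m) (hAK : A.card ≤ K)
    (h : ∀ B ⊆ range m, B.Nonempty → B.card ≤ K → (g - 1) * B.card + 1 ≤ (sl s B).card) {b : Fin g → V}
    (hb : ∀ i j, i < j → (j, b j) ∉ (stpG s m)^[K] {(i, b i)}) (J : Finset (Fin g)) :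
    ∀ B ⊆ A, (g - 1) * B.card + J.card ≤ (sl s B ∪ J.image (fun j => (j, b j))).card := by
  induction J using Finset.induction_on_min with
  | empty =>
    intro B hB
    rw [image_empty, union_empty, card_empty, add_zero]
    by_cases hne : B.Nonempty
    · have := h B (hB.trans hA) hne ((card_le_card hB).trans hAK)
      omega
    · rw [not_nonempty_iff_eq_empty] at hne
      rw [hne, card_empty, mul_zero]
      exact Nat.zero_le _
  | insert a J ha ih =>
    intro B hB
    obtain ⟨X, hX1, hX2, hX3⟩ := exists_closedG s m A.card A rfl hA {(a, b a)}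
    have haX : (a, b a) ∈ X := hX1 (mem_singleton_self _)
    have hJX : ∀ x ∈ J, (x, b x) ∉ X := fun x hx hxX => hb a x (ha x hx) (iter_leG s m hAK _ (hX2 hxX))
    obtain ⟨B1, hB1⟩ : ∃ B1, B1 = B.filter (fun c => ∀ j, (j, s c j) ∈ X) := ⟨_, rfl⟩
    obtain ⟨B2, hB2⟩ : ∃ B2, B2 = B.filter (fun c => ¬ ∀ j, (j, s c j) ∈ X) := ⟨_, rfl⟩
    have hB12 : B1.card + B2.card = B.card := by
      rw [hB1, hB2]
      exact card_filter_add_card_filter_not _
    have hs1 : B1 ⊆ B := by rw [hB1]; exact filter_subset _ _
    have hs2 : B2 ⊆ B := by rw [hB2]; exact filter_subset _ _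
    have h2 := ih B2 (hs2.trans hB)
    have h1 : (g - 1) * B1.card + 1 ≤ (sl s B1 ∪ {(a, b a)}).card := by
      by_cases hne : B1.Nonempty
      · exact (h B1 ((hs1.trans hB).trans hA) hne ((card_le_card (hs1.trans hB)).trans hAK)).trans
          (card_le_card subset_union_left)
      · rw [not_nonempty_iff_eq_empty] at hne
        rw [hne, card_empty, mul_zero, zero_add]
        exact card_pos.2 ⟨(a, b a), mem_union_right _ (mem_singleton_self _)⟩
    have hin : ∀ v ∈ sl s B1 ∪ {(a, b a)}, v ∈ X := by
      intro v hv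
      rw [mem_union, mem_sl, mem_singleton] at hv
      rcases hv with ⟨c, hc, j, rfl⟩ | rfl
      · rw [hB1, mem_filter] at hc
        exact hc.2 j
      · exact haX
    have hout : ∀ v ∈ sl s B2 ∪ J.image (fun j => (j, b j)), v ∉ X := by
      intro v hv
      rw [mem_union, mem_sl, mem_image] at hv
      rcases hv with ⟨c, hc, j, rfl⟩ | ⟨x, hx, rfl⟩
      · rw [hB2, mem_filter] at hc
        exact (hX3 c (hB hc.1)).resolve_left hc.2 j
      · exact hJX x hx
    have hdis : Disjoint (sl s B1 ∪ {(a, b a)}) (sl s B2 ∪ J.image (fun j => (j, b j))) := by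
      rw [disjoint_left]
      exact fun v hv hv' => hout v hv' (hin v hv)
    have hsub : (sl s B1 ∪ {(a, b a)}) ∪ (sl s B2 ∪ J.image (fun j => (j, b j))) ⊆
        sl s B ∪ (insert a J).image (fun j => (j, b j)) := by
      intro v hv
      rw [image_insert, mem_union, mem_insert]
      rw [mem_union, mem_union, mem_union, mem_singleton] at hv
      rcases hv with (hv | hv) | (hv | hv)
      · rw [mem_sl] at hv
        obtain ⟨c, hc, hv⟩ := hv
        exact Or.inl (mem_sl.2 ⟨c, hs1 hc, hv⟩)
      · exact Or.inr (Or.inl hv)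
      · rw [mem_sl] at hv
        obtain ⟨c, hc, hv⟩ := hv
        exact Or.inl (mem_sl.2 ⟨c, hs2 hc, hv⟩)
      · exact Or.inr (Or.inr hv)
    have h3 := card_le_card hsub
    rw [card_union_of_disjoint hdis] at h3
    have haJ : a ∉ J := fun h => lt_irrefl a (ha a h)
    rw [card_insert_of_notMem haJ]
    have h4 : (g - 1) * B.card = (g - 1) * B1.card + (g - 1) * B2.card := by rw [← hB12, mul_add]
    omega

/-- the greedy construction -/
theorem greedyG [Fintype V] [Nonempty V] (hg : 1 ≤ g) (K D : ℕ) (m : ℕ)
    (hm : m ≤ (Fintype.card V - g * (1 + D * g) ^ K) * D) :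
    ∃ s : ℕ → Fin g → V, (∀ v, (incG s m v).card ≤ D) ∧
      ∀ A ⊆ range m, A.Nonempty → A.card ≤ K → (g - 1) * A.card + 1 ≤ (sl s A).card := by
  induction m with
  | zero =>
    obtain ⟨v⟩ := ‹Nonempty V›
    refine ⟨fun _ _ => v, fun w => by simp [incG], fun A hA hne _ => ?_⟩
    rw [range_zero, subset_empty] at hA
    exact absurd hA hne.ne_empty
  | succ m ih =>
    obtain ⟨s, h1, h2⟩ := ih (by omega)
    -- slots of small degree
    have hbig : ∀ j : Fin g, g * (1 + D * g) ^ K < (univ.filter (fun x : V => (incG s m (j, x)).card < D)).card := by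
      intro j
      have hsum : (univ.filter (fun x : V => ¬ (incG s m (j, x)).card < D)).card * D ≤ m := by
        have h3 : ∑ x : V, (incG s m (j, x)).card = m := by
          have h4 := card_eq_sum_card_fiberwise (f := fun c => s c j) (s := range m) (t := univ) fun _ _ => mem_coe.2 (mem_univ _)
          rw [card_range] at h4
          exact h4.symm
        refine le_trans ?_ h3.le
        rw [← smul_eq_mul, ← sum_const]
        refine (sum_le_sum (f := fun _ => D) (g := fun x => (incG s m (j, x)).card) ?_).trans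
          (sum_le_sum_of_subset (subset_univ _))
        intro x hx
        rw [mem_filter, not_lt] at hx
        exact hx.2
      have h3 := card_filter_add_card_filter_not (s := (univ : Finset V)) (fun x : V => (incG s m (j, x)).card < D)
      rw [card_univ] at h3
      have h4 : (univ.filter (fun x : V => ¬ (incG s m (j, x)).card < D)).card < Fintype.card V - g * (1 + D * g) ^ K := by
        by_contra hcon
        have h5 := Nat.mul_le_mul_right D (not_lt.1 hcon)
        omega
      omega
    -- the new cluster
    have hnew : ∀ t ≤ g, ∃ b : Fin g → V, ∀ j : Fin g, j.1 < t → (incG s m (j, b j)).card < D ∧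
        ∀ i < j, (j, b j) ∉ (stpG s m)^[K] {(i, b i)} := by
      intro t
      induction t with
      | zero =>
        intro _
        obtain ⟨v⟩ := ‹Nonempty V›
        exact ⟨fun _ => v, fun j hj => absurd hj (Nat.not_lt_zero _)⟩
      | succ t ih =>
        intro ht
        obtain ⟨b, hb⟩ := ih (by omega)
        obtain ⟨a, ha⟩ : ∃ a : Fin g, a.1 = t := ⟨⟨t, ht⟩, rfl⟩
        obtain ⟨Fb, hFb⟩ : ∃ Fb, Fb = (univ : Finset (Fin g)).biUnion (fun i => (stpG s m)^[K] {(i, b i)}) := ⟨_, rfl⟩
        have hFc : Fb.card ≤ g * (1 + D * g) ^ K := by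
          rw [hFb]
          refine (card_biUnion_le_card_mul _ _ ((1 + D * g) ^ K) fun i _ => ?_).trans ?_
          · have := card_iterG h1 K {(i, b i)}
            rwa [card_singleton, mul_one] at this
          · rw [card_univ, Fintype.card_fin]
        obtain ⟨x, hx, hxF⟩ : ∃ x ∈ univ.filter (fun x : V => (incG s m (a, x)).card < D), (a, x) ∉ Fb := by
          by_contra hcon
          push Not at hcon
          have h3 : (univ.filter (fun x : V => (incG s m (a, x)).card < D)).card ≤ Fb.card :=
            card_le_card_of_injOn (fun x => (a, x)) (fun x hx => hcon x hx) (fun x _ y _ h => (Prod.ext_iff.1 h).2)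
          have h4 := hbig a
          omega
        refine ⟨Function.update b a x, fun j hj => ?_⟩
        have hup : ∀ i, i ≠ a → Function.update b a x i = b i := fun i hi => Function.update_of_ne hi _ _
        by_cases hja : j = a
        · subst hja
          rw [Function.update_self]
          refine ⟨(mem_filter.1 hx).2, fun i hi => ?_⟩
          rw [hup i hi.ne]
          intro h3
          apply hxF
          rw [hFb, mem_biUnion]
          exact ⟨i, mem_univ _, h3⟩
        · have hjt : j.1 < t := by
            rcases Nat.lt_succ_iff_lt_or_eq.1 hj with h | h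
            · exact h
            · exact absurd (Fin.ext (h.trans ha.symm)) hja
          obtain ⟨h3, h4⟩ := hb j hjt
          rw [hup j hja]
          refine ⟨h3, fun i hi => ?_⟩
          rw [hup i (by
            rintro rfl
            have : i.1 < j.1 := hi
            omega)]
          exact h4 i hi
    obtain ⟨b, hb⟩ := hnew g le_rfl
    obtain ⟨s', hs'⟩ : ∃ s', s' = Function.update s m b := ⟨_, rfl⟩
    have hm' : s' m = b := by rw [hs']; simp
    have hlt : ∀ c, c ∈ range m → s' c = s c := by
      intro c hc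
      rw [hs', Function.update_of_ne]
      rintro rfl
      simp at hc
    refine ⟨s', ?_, ?_⟩
    · intro w
      have h3 : incG s' (m + 1) w ⊆ incG s m w ∪ (if b w.1 = w.2 then {m} else ∅) := by
        intro c hc
        unfold incG at hc
        rw [mem_filter, mem_range, Nat.lt_succ_iff_lt_or_eq] at hc
        rw [mem_union]
        obtain ⟨h4 | h4, h5⟩ := hc
        · left
          rw [hlt c (mem_range.2 h4)] at h5
          exact mem_filter.2 ⟨mem_range.2 h4, h5⟩
        · right
          subst h4
          rw [hm'] at h5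
          rw [if_pos h5]
          exact mem_singleton_self _
      refine (card_le_card h3).trans ((card_union_le _ _).trans ?_)
      by_cases hw : b w.1 = w.2
      · rw [if_pos hw, card_singleton]
        have h4 := (hb w.1 w.1.2).1
        rw [hw] at h4
        exact h4
      · rw [if_neg hw, card_empty, add_zero]
        exact h1 w
    · intro A hA hne hAK
      have hsl : ∀ B ⊆ range m, sl s' B = sl s B := by
        intro B hB
        unfold sl
        refine biUnion_congr rfl fun c hc => ?_
        rw [hlt c (hB hc)]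
      by_cases hmA : m ∈ A
      · obtain ⟨B, hB⟩ : ∃ B, B = A.erase m := ⟨_, rfl⟩
        have hBm : B ⊆ range m := by
          intro c hc
          rw [hB, mem_erase] at hc
          have := mem_range.1 (hA hc.2)
          exact mem_range.2 (by omega)
        have hBc : B.card + 1 = A.card := by rw [hB]; exact card_erase_add_one hmA
        have hins : A = insert m B := by rw [hB, insert_erase hmA]
        have hends : sl s' A = sl s B ∪ (univ : Finset (Fin g)).image (fun j => (j, b j)) := by
          rw [← hsl B hBm, hins]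
          unfold sl
          rw [biUnion_insert, hm', union_comm]
        have h3 := peel hBm (K := K) (by omega) h2 (b := b) (fun i j hij => (hb j j.2).2 i hij) univ B (Subset.refl _)
        rw [hends, ← hBc]
        rw [card_univ, Fintype.card_fin] at h3
        have h4 : (g - 1) * (B.card + 1) = (g - 1) * B.card + (g - 1) := by ring
        omega
      · have hAm : A ⊆ range m := by
          intro c hc
          have h3 := mem_range.1 (hA hc)
          rw [mem_range]
          have : c ≠ m := by rintro rfl; exact hmA hc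
          omega
        rw [hsl A hAm]
        exact h2 A hAm hne hAK

end

theorem forestG (k g D : ℕ) (hg : 1 ≤ g) (_hD : 1 ≤ D) : ∃ C : ℕ, ∀ N M : ℕ, M ≤ (N - C) * D →
    ∃ s : Fin M → Fin g → Fin N, ∀ A : Finset (Fin M), A.Nonempty → A.card ≤ k →
      (g - 1) * A.card + 1 ≤ (slots s A).card := by
  refine ⟨g * (1 + D * g) ^ k, fun N M hm => ?_⟩
  rcases Nat.eq_zero_or_pos N with rfl | hN
  · have hm0 : M = 0 := by
      rw [Nat.zero_sub, zero_mul] at hm
      omega
    subst hm0
    exact ⟨fun i => i.elim0, fun A hA => by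
      obtain ⟨i, _⟩ := hA
      exact i.elim0⟩
  · have : Nonempty (Fin N) := ⟨⟨0, hN⟩⟩
    obtain ⟨s, -, h2⟩ := greedyG (V := Fin N) hg k D M (by rw [Fintype.card_fin]; exact hm)
    refine ⟨fun i => s i, fun A hA hAk => ?_⟩
    have h3 := h2 (A.map Fin.valEmbedding) (by
      intro l hl
      rw [mem_map] at hl
      obtain ⟨i, -, rfl⟩ := hl
      exact mem_range.2 i.2) (hA.map) (by rw [card_map]; exact hAk)
    rw [card_map] at h3
    refine h3.trans (card_le_card ?_)
    intro w hw
    rw [mem_sl] at hw
    obtain ⟨l, hl, j, rfl⟩ := hw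
    rw [mem_map] at hl
    obtain ⟨i, hi, rfl⟩ := hl
    unfold slots
    rw [mem_biUnion]
    refine ⟨i, hi, ?_⟩
    rw [mem_image]
    exact ⟨j, mem_univ _, rfl⟩

end Pool.Agent.LT4
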