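import Pool.Agent.LT74.Low

/-!
# LT4: the lower bound, sets of `j` start positions (module L1)
-/

set_option autoImplicit false

namespace Pool.Agent.LT4

open Pool.Agent.LT74

variable {V : Type*} [DecidableEq V]

/-- the two positions of a call are in the same component -/
theorem call_mem (L : List (V × V)) : ∀ c ∈ L, c.2 ∈ cp L c.1 := by
  induction L with
  | nil => intro c hc; simp at hc
  | cons d L ih =>
    intro c hc
    rcases List.mem_cons.1 hc with rfl | hc
    · exact cp_call _ _
    · exact cp_mono _ _ (ih c hc)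

theorem call_iff (L : List (V × V)) (v : V) : ∀ c ∈ L, c.1 ∈ cp L v ↔ c.2 ∈ cp L v := by
  intro c hc
  have h := call_mem L c hc
  exact ⟨fun h1 => cp_trans L h h1, fun h1 => cp_trans L (cp_symm L h) h1⟩

/-- a set `K` which is closed under the calls -/
theorem nA_le_en_of_closed (L : List (V × V)) {X K : Finset V} (hX : X ⊆ K)
    (hK : ∀ c ∈ L, c.1 ∈ K ↔ c.2 ∈ K) : al L X ⊆ K ∧ nA L X ≤ en L K := by
  induction L with
  | nil => exact ⟨hX, le_rfl⟩
  | cons c L ih =>
    obtain ⟨h1, h2⟩ := ih fun d hd => hK d (List.mem_cons_of_mem _ hd)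
    have h3 := hK c List.mem_cons_self
    rw [al, nA, en]
    by_cases h : c.1 ∈ al L X ∨ c.2 ∈ al L X
    · have h4 : c.1 ∈ K := by
        rcases h with h | h
        · exact h1 h
        · exact h3.2 (h1 h)
      rw [if_pos h, if_pos h, if_pos h4]
      refine ⟨?_, by omega⟩
      intro p hp
      rcases Finset.mem_insert.1 hp with rfl | hp
      · exact h4
      rcases Finset.mem_insert.1 hp with rfl | hp
      · exact h3.1 h4
      · exact h1 hp
    · rw [if_neg h, if_neg h]
      exact ⟨h1, by omega⟩

/-- the number of calls reached from `X` in a component is at most the number of calls there -/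
theorem nA_le_en_set (L : List (V × V)) (v : V) (X : Finset V) (hX : X ⊆ cp L v) :
    nA L X ≤ en L (cp L v) :=
  (nA_le_en_of_closed L hX (call_iff L v)).2

/-- the step for two components -/
theorem goodK_join {c : V × V} {L : List (V × V)} {K1 K2 : Finset V}
    (h1 : ∀ j, 1 ≤ j → j ≤ K1.card → ∃ X ⊆ K1, X.card = j ∧
      nA L X + K1.card ≤ Nat.log 2 K1.card + en L K1 + j)
    (h2 : ∀ j, 1 ≤ j → j ≤ K2.card → ∃ X ⊆ K2, X.card = j ∧
      nA L X + K2.card ≤ Nat.log 2 K2.card + en L K2 + j)
    (e2 : K2.card ≤ en L K2 + 1) (hnA : nA L K1 ≤ en L K1) (hd : Disjoint K1 K2)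
    (hc : K1.card ≤ K2.card) (h0 : 1 ≤ K1.card)
    (hen : en (c :: L) (K1 ∪ K2) = en L K1 + en L K2 + 1) :
    ∀ j, 1 ≤ j → j ≤ (K1 ∪ K2).card → ∃ X ⊆ K1 ∪ K2, X.card = j ∧
      nA (c :: L) X + (K1 ∪ K2).card ≤ Nat.log 2 (K1 ∪ K2).card + en (c :: L) (K1 ∪ K2) + j := by
  intro j hj hjK
  have hcard : (K1 ∪ K2).card = K1.card + K2.card := Finset.card_union_of_disjoint hd
  have hlog := log_add h0 hc
  by_cases h3 : j ≤ K1.card
  · obtain ⟨X, hX, hXj, h4⟩ := h1 j hj h3
    refine ⟨X, hX.trans Finset.subset_union_left, hXj, ?_⟩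
    have h5 := nA_cons_le c L X
    rw [hcard, hen]
    omega
  · obtain ⟨X, hX, hXj, h4⟩ := h2 (j - K1.card) (by omega) (by omega)
    refine ⟨K1 ∪ X, Finset.union_subset_union_right hX, ?_, ?_⟩
    · rw [Finset.card_union_of_disjoint (Finset.disjoint_of_subset_right hX hd), hXj]
      omega
    · have h5 := nA_cons_le c L (K1 ∪ X)
      have h6 := nA_union_le L K1 X
      have h8 : Nat.log 2 K2.card ≤ Nat.log 2 (K1.card + K2.card) :=
        Nat.log_mono_right (by omega)
      rw [hcard, hen]
      omega

/-- (L1) every component contains `j` positions which reach few calls, for every `j` -/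
theorem good_k (L : List (V × V)) (v : V) : ∀ j, 1 ≤ j → j ≤ (cp L v).card →
    ∃ X ⊆ cp L v, X.card = j ∧
      nA L X + (cp L v).card ≤ Nat.log 2 (cp L v).card + en L (cp L v) + j := by
  induction L generalizing v with
  | nil =>
    intro j hj hjK
    have hc : (cp ([] : List (V × V)) v).card = 1 := Finset.card_singleton v
    refine ⟨cp [] v, Finset.Subset.refl _, by omega, ?_⟩
    rw [hc, nA]
    omega
  | cons c L ih =>
    have hcp : ∀ u, ∀ x ∈ cp L u, cp L x = cp L u := fun u x hx => cp_eq L hx
    by_cases hv : v ∈ cp L c.1 ∪ cp L c.2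
    · have hK : cp (c :: L) v = cp L c.1 ∪ cp L c.2 := by rw [cp, if_pos hv]
      rw [hK]
      have hpos : ∀ u, 1 ≤ (cp L u).card := fun u => Finset.card_pos.2 ⟨u, mem_cp L u⟩
      by_cases h1 : c.2 ∈ cp L c.1
      · -- the same component
        have h2 : cp L c.2 = cp L c.1 := hcp _ _ h1
        rw [h2, Finset.union_self]
        have h3 : en (c :: L) (cp L c.1) = en L (cp L c.1) + 1 := by
          rw [en, if_pos (mem_cp L c.1)]
        intro j hj hjK
        obtain ⟨X, hX, hXj, h5⟩ := ih c.1 j hj hjK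
        refine ⟨X, hX, hXj, ?_⟩
        have h6 := nA_cons_le c L X
        omega
      · have hd : Disjoint (cp L c.1) (cp L c.2) := by
          rw [Finset.disjoint_left]
          intro x hx hx'
          refine h1 ?_
          rw [← hcp _ _ hx, hcp _ _ hx']
          exact mem_cp L c.2
        have hen : en (c :: L) (cp L c.1 ∪ cp L c.2)
            = en L (cp L c.1) + en L (cp L c.2) + 1 := by
          rw [en, if_pos (Finset.mem_union_left _ (mem_cp L c.1)), en_union L hd]
        rcases le_total (cp L c.1).card (cp L c.2).card with h2 | h2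
        · exact goodK_join (ih c.1) (ih c.2) (good_cp L c.2).card
            (nA_le_en_set L c.1 _ (Finset.Subset.refl _)) hd h2 (hpos _) hen
        · rw [Finset.union_comm] at hen ⊢
          exact goodK_join (ih c.2) (ih c.1) (good_cp L c.1).card
            (nA_le_en_set L c.2 _ (Finset.Subset.refl _)) hd.symm h2 (hpos _) (by omega)
    · have hK : cp (c :: L) v = cp L v := by rw [cp, if_neg hv]
      rw [hK]
      have h1 : c.1 ∉ cp L v := fun h => hv (Finset.mem_union_left _ (cp_symm L h))
      have h2 : c.2 ∉ cp L v := fun h => hv (Finset.mem_union_right _ (cp_symm L h))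
      have h3 : en (c :: L) (cp L v) = en L (cp L v) := by rw [en, if_neg h1, Nat.add_zero]
      intro j hj hjK
      obtain ⟨X, hX, hXj, h5⟩ := ih v j hj hjK
      refine ⟨X, hX, hXj, ?_⟩
      rw [h3, nA_cons_of_not c L X (K := cp L v) (fun y hy => hcp _ _ (hX hy)) h1 h2]
      exact h5

end Pool.Agent.LT4
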