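import Pool.Agent.LT4.Defs

/-!
# [LT4-RouteC] the routing with clusters (helper1)

Hubs `Fin (h + 1)`, `k ≤ h`; leaves `(c, j)`: wire `j` of the cluster `c`.
-/

set_option autoImplicit false

namespace Pool.Agent.LT4

section rt

variable {W ι : Type} [DecidableEq W]

theorem Rt.refl (L : List (W × W)) (y : ι → W) : Rt L y y := ⟨[], List.nil_sublist _, fun i => by simp⟩

theorem Rt.append {L₁ L₂ : List (W × W)} {x y z : ι → W} (h2 : Rt L₂ x y) (h1 : Rt L₁ y z) :
    Rt (L₁ ++ L₂) x z := by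
  obtain ⟨S₂, hS₂, h2⟩ := h2
  obtain ⟨S₁, hS₁, h1⟩ := h1
  refine ⟨S₁ ++ S₂, hS₁.append hS₂, fun i => ?_⟩
  rw [List.map_append, List.prod_append, Equiv.Perm.mul_apply, h2, h1]

theorem Rt.one {L : List (W × W)} {c : W × W} (hc : c ∈ L) (y : ι → W) :
    Rt L y (fun i => Equiv.swap c.1 c.2 (y i)) :=
  ⟨[c], List.singleton_sublist.2 hc, fun i => by simp⟩

theorem Rt.reverse {L : List (W × W)} {y z : ι → W} (h : Rt L y z) : Rt L.reverse z y := by
  obtain ⟨S, hS, h⟩ := h
  refine ⟨S.reverse, hS.reverse, fun i => ?_⟩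
  have h1 : (S.reverse.map fun c => Equiv.swap c.1 c.2).prod = ((S.map fun c => Equiv.swap c.1 c.2).prod)⁻¹ := by
    rw [List.prod_inv_reverse, List.map_reverse, List.map_map]
    congr 2
  rw [h1, ← h i]
  simp

theorem prod_map_emb {W' : Type} [DecidableEq W'] (e : W → W') (he : Function.Injective e) (S : List (W × W)) (w : W) :
    (((S.map fun c => (e c.1, e c.2)).map fun c => Equiv.swap c.1 c.2).prod) (e w) =
      e ((S.map fun c => Equiv.swap c.1 c.2).prod w) := by
  induction S with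
  | nil => simp
  | cons c S ih =>
    simp only [List.map_cons, List.prod_cons, Equiv.Perm.mul_apply]
    rw [ih]
    exact (he.map_swap _ _ _).symm

omit [DecidableEq W] in
theorem prod_map_ne {W' : Type} [DecidableEq W'] (e : W → W') (S : List (W × W)) (w : W') (hw : ∀ a, e a ≠ w) :
    (((S.map fun c => (e c.1, e c.2)).map fun c => Equiv.swap c.1 c.2).prod) w = w := by
  induction S with
  | nil => simp
  | cons c S ih =>
    simp only [List.map_cons, List.prod_cons, Equiv.Perm.mul_apply]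
    rw [ih]
    exact Equiv.swap_apply_of_ne_of_ne (hw _).symm (hw _).symm

theorem Rt.map {W' : Type} [DecidableEq W'] {L : List (W × W)} {y z : ι → W} (e : W → W')
    (he : Function.Injective e) (h : Rt L y z) :
    Rt (L.map fun c => (e c.1, e c.2)) (fun i => e (y i)) (fun i => e (z i)) := by
  obtain ⟨S, hS, h⟩ := h
  refine ⟨S.map fun c => (e c.1, e c.2), hS.map _, fun i => ?_⟩
  change (((S.map fun c => (e c.1, e c.2)).map fun c => Equiv.swap c.1 c.2).prod) (e (y i)) = e (z i)
  rw [← h i]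
  exact prod_map_emb e he S (y i)

theorem Rt.injective {L : List (W × W)} {y z : ι → W} (h : Rt L y z) (hy : Function.Injective y) :
    Function.Injective z := by
  obtain ⟨S, -, h⟩ := h
  intro i i' hii
  rw [← h i, ← h i'] at hii
  exact hy (Equiv.injective _ hii)

end rt

section block

variable {Λ β : Type} [DecidableEq Λ] {k h : ℕ}

/-- a block -/
def blk (h : ℕ) (B : List Λ) : List ((Fin (h + 1) ⊕ Λ) × (Fin (h + 1) ⊕ Λ)) :=
  (B.map fun l => (Sum.inl 0, Sum.inr l)) ++ ((List.finRange h).map fun j => (Sum.inl 0, Sum.inl j.succ))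

/-- a pass; the last block of the list acts first -/
def pass (h : ℕ) (B : β → List Λ) (bs : List β) : List ((Fin (h + 1) ⊕ Λ) × (Fin (h + 1) ⊕ Λ)) :=
  (bs.map fun b => blk h (B b)).flatten

/-- the tokens in `J` are at hubs, the others did not move -/
structure St (x : Fin k → Fin (h + 1) ⊕ Λ) (J : Finset (Fin k)) (y : Fin k → Fin (h + 1) ⊕ Λ) : Prop where
  inj : Function.Injective y
  hub : ∀ i ∈ J, ∃ j, y i = Sum.inl j
  leaf : ∀ i, i ∉ J → y i = x i

theorem blk_step (hkh : k ≤ h) {x y : Fin k → Fin (h + 1) ⊕ Λ} {J : Finset (Fin k)} (hst : St x J y)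
    (hx : ∀ i, i ∉ J → ∃ l, x i = Sum.inr l) {i₀ : Fin k} (hi₀ : i₀ ∉ J) {l : Λ} (hl : x i₀ = Sum.inr l)
    (B : List Λ) (hB : l ∈ B) : ∃ y', St x (insert i₀ J) y' ∧ Rt (blk h B) y y' := by
  obtain ⟨j₀, hj₀⟩ : ∃ j₀ : Fin (h + 1), ∀ i, y i ≠ Sum.inl j₀ := by
    by_contra hcon
    push Not at hcon
    choose g hg using hcon
    have hginj : Function.Injective g := by
      intro j j' hjj
      have h1 := hg j
      rw [hjj, hg j'] at h1
      exact (Sum.inl_injective h1).symm
    have h1 := Fintype.card_le_of_injective g hginj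
    rw [Fintype.card_fin, Fintype.card_fin] at h1
    omega
  -- clear hub 0
  obtain ⟨y₁, hr₁, hinj₁, h0₁, hhub₁, hleaf₁⟩ : ∃ y₁ : Fin k → Fin (h + 1) ⊕ Λ,
      Rt ((List.finRange h).map fun j => ((Sum.inl 0 : Fin (h + 1) ⊕ Λ), (Sum.inl j.succ : Fin (h + 1) ⊕ Λ))) y y₁ ∧
      Function.Injective y₁ ∧ (∀ i, y₁ i ≠ Sum.inl 0) ∧ (∀ i, (∃ j, y i = Sum.inl j) → ∃ j, y₁ i = Sum.inl j) ∧
      (∀ i l, y i = Sum.inr l → y₁ i = Sum.inr l) := by
    rcases Fin.eq_zero_or_eq_succ j₀ with rfl | ⟨j, rfl⟩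
    · exact ⟨y, Rt.refl _ _, hst.inj, hj₀, fun i hi => hi, fun i l hl => hl⟩
    · refine ⟨fun i => Equiv.swap (Sum.inl 0) (Sum.inl j.succ) (y i), ?_, ?_, ?_, ?_, ?_⟩
      · exact Rt.one (c := (Sum.inl 0, Sum.inl j.succ)) (List.mem_map.2 ⟨j, List.mem_finRange j, rfl⟩) y
      · exact (Equiv.injective _).comp hst.inj
      · intro i hi
        have h1 : Equiv.swap (Sum.inl 0) (Sum.inl j.succ) (y i) = (Sum.inl 0 : Fin (h + 1) ⊕ Λ) := hi
        rw [Equiv.swap_apply_eq_iff, Equiv.swap_apply_left] at h1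
        exact hj₀ i h1
      · rintro i ⟨a, ha⟩
        change ∃ j', Equiv.swap _ _ (y i) = _
        rw [ha]
        by_cases h1 : a = 0
        · exact ⟨j.succ, by rw [h1, Equiv.swap_apply_left]⟩
        · by_cases h2 : a = j.succ
          · exact ⟨0, by rw [h2, Equiv.swap_apply_right]⟩
          · refine ⟨a, Equiv.swap_apply_of_ne_of_ne ?_ ?_⟩
            · exact fun h => h1 (Sum.inl_injective h)
            · exact fun h => h2 (Sum.inl_injective h)
      · intro i l hl
        change Equiv.swap _ _ (y i) = _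
        rw [hl]
        exact Equiv.swap_apply_of_ne_of_ne (by simp) (by simp)
  have hi₁ : y₁ i₀ = Sum.inr l := hleaf₁ i₀ l (by rw [hst.leaf i₀ hi₀, hl])
  have hkeep : ∀ i, i ≠ i₀ → Equiv.swap (Sum.inl 0) (Sum.inr l) (y₁ i) = y₁ i := by
    intro i hi
    refine Equiv.swap_apply_of_ne_of_ne (h0₁ i) ?_
    intro h1
    exact hi (hinj₁ (h1.trans hi₁.symm))
  refine ⟨fun i => Equiv.swap (Sum.inl 0) (Sum.inr l) (y₁ i), ⟨?_, ?_, ?_⟩, ?_⟩
  · exact (Equiv.injective _).comp hinj₁
  · intro i hi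
    by_cases h1 : i = i₀
    · refine ⟨0, ?_⟩
      rw [h1, hi₁, Equiv.swap_apply_right]
    · rw [hkeep i h1]
      exact hhub₁ i (hst.hub i ((Finset.mem_insert.1 hi).resolve_left h1))
  · intro i hi
    have h1 : i ≠ i₀ := fun h => hi (Finset.mem_insert.2 (Or.inl h))
    have h2 : i ∉ J := fun h => hi (Finset.mem_insert.2 (Or.inr h))
    obtain ⟨l', hl'⟩ := hx i h2
    change Equiv.swap _ _ (y₁ i) = _
    rw [hkeep i h1, hl']
    exact hleaf₁ i l' (by rw [hst.leaf i h2, hl'])
  · exact Rt.append hr₁ (Rt.one (c := (Sum.inl 0, Sum.inr l)) (List.mem_map.2 ⟨l, hB, rfl⟩) y₁)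

theorem pass_step [DecidableEq β] (hkh : k ≤ h) (B : β → List Λ) {x : Fin k → Fin (h + 1) ⊕ Λ} {J : Finset (Fin k)}
    (hx : ∀ i, i ∉ J → ∃ l, x i = Sum.inr l) {y : Fin k → Fin (h + 1) ⊕ Λ} (hst : St x J y) (s : Fin k → β)
    (bs : List β) (hnd : bs.Nodup) : ∀ T : Finset (Fin k), Set.InjOn s T → (∀ i ∈ T, s i ∈ bs) →
      (∀ i ∈ T, ∃ l, x i = Sum.inr l ∧ l ∈ B (s i)) → Disjoint J T →
        ∃ y', St x (J ∪ T) y' ∧ Rt (pass h B bs) y y' := by
  induction bs with
  | nil =>
    intro T _ hsb _ _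
    have hT : T = ∅ := by
      rw [Finset.eq_empty_iff_forall_notMem]
      intro i hi
      exact absurd (hsb i hi) List.not_mem_nil
    subst hT
    rw [Finset.union_empty]
    exact ⟨y, hst, Rt.refl _ _⟩
  | cons b bs ih =>
    intro T hinj hsb hT hd
    have hbs := (List.nodup_cons.1 hnd).2
    have hsub : T.filter (fun i => s i ≠ b) ⊆ T := Finset.filter_subset _ _
    obtain ⟨y₁, h₁, hr₁⟩ := ih hbs (T.filter fun i => s i ≠ b) (hinj.mono (by exact_mod_cast hsub))
      (fun i hi => by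
        rw [Finset.mem_filter] at hi
        exact (List.mem_cons.1 (hsb i hi.1)).resolve_left hi.2)
      (fun i hi => hT i (hsub hi)) (Finset.disjoint_of_subset_right hsub hd)
    have hpass : pass h B (b :: bs) = blk h (B b) ++ pass h B bs := by
      unfold pass
      rw [List.map_cons, List.flatten_cons]
    by_cases hex : ∃ i₀ ∈ T, s i₀ = b
    · obtain ⟨i₀, hi₀, hsi₀⟩ := hex
      obtain ⟨l, hl, hlB⟩ := hT i₀ hi₀
      have hnot : i₀ ∉ J ∪ T.filter fun i => s i ≠ b := by
        rw [Finset.mem_union, Finset.mem_filter]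
        rintro (h2 | h2)
        · exact Finset.disjoint_left.1 hd h2 hi₀
        · exact h2.2 hsi₀
      obtain ⟨y', h', hr'⟩ := blk_step hkh h₁ (fun i hi => hx i fun h2 => hi (Finset.mem_union_left _ h2)) hnot hl (B b)
        (hsi₀ ▸ hlB)
      refine ⟨y', ?_, ?_⟩
      · have heq : insert i₀ (J ∪ T.filter fun i => s i ≠ b) = J ∪ T := by
          ext i
          rw [Finset.mem_insert, Finset.mem_union, Finset.mem_union, Finset.mem_filter]
          constructor
          · rintro (rfl | h2 | h2)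
            · exact Or.inr hi₀
            · exact Or.inl h2
            · exact Or.inr h2.1
          · rintro (h2 | h2)
            · exact Or.inr (Or.inl h2)
            · by_cases h3 : s i = b
              · exact Or.inl (hinj h2 hi₀ (h3.trans hsi₀.symm))
              · exact Or.inr (Or.inr ⟨h2, h3⟩)
        rw [← heq]
        exact h'
      · rw [hpass]
        exact Rt.append hr₁ hr'
    · push Not at hex
      have heq : (T.filter fun i => s i ≠ b) = T := Finset.filter_true_of_mem hex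
      rw [heq] at h₁
      refine ⟨y₁, h₁, ?_⟩
      rw [hpass]
      exact Rt.append hr₁ (Rt.refl _ _)

end block

section clusters

variable {k h g M N : ℕ}

/-- the leaves of pass `j` in block `b` -/
noncomputable def lv (s : Fin M → Fin g → Fin N) (j : Fin g) (b : Fin N) : List (Fin M × Fin g) :=
  ((Finset.univ.filter fun c => s c j = b).toList).map fun c => (c, j)

/-- the passes `js` -/
noncomputable def passes (h : ℕ) (s : Fin M → Fin g → Fin N) (js : List (Fin g)) :
    List ((Fin (h + 1) ⊕ (Fin M × Fin g)) × (Fin (h + 1) ⊕ (Fin M × Fin g))) :=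
  (js.map fun j => pass h (lv s j) (List.finRange N)).flatten

theorem mem_lv {s : Fin M → Fin g → Fin N} {j : Fin g} {b : Fin N} {c : Fin M} : (c, j) ∈ lv s j b ↔ s c j = b := by
  unfold lv
  rw [List.mem_map]
  constructor
  · rintro ⟨c', hc', he⟩
    rw [Prod.ext_iff] at he
    obtain ⟨rfl, -⟩ := he
    exact (Finset.mem_filter.1 (Finset.mem_toList.1 hc')).2
  · intro hb
    exact ⟨c, Finset.mem_toList.2 (Finset.mem_filter.2 ⟨Finset.mem_univ _, hb⟩), rfl⟩

theorem passes_step (hkh : k ≤ h) (hN : 0 < N) (s : Fin M → Fin g → Fin N) {x : Fin k → Fin (h + 1) ⊕ (Fin M × Fin g)}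
    (hx : Function.Injective x)
    (hcol : ∀ i i' c c' j, x i = Sum.inr (c, j) → x i' = Sum.inr (c', j) → s c j = s c' j → i = i')
    (js : List (Fin g)) (hnd : js.Nodup) :
    ∃ y, St x (Finset.univ.filter fun i => (∃ a, x i = Sum.inl a) ∨ ∃ c j, j ∈ js ∧ x i = Sum.inr (c, j)) y ∧
      Rt (passes h s js) x y := by
  classical
  induction js with
  | nil =>
    refine ⟨x, ⟨hx, ?_, fun i _ => rfl⟩, Rt.refl _ _⟩
    intro i hi
    rcases (Finset.mem_filter.1 hi).2 with h1 | ⟨c, j, hj, -⟩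
    · exact h1
    · exact absurd hj List.not_mem_nil
  | cons j js ih =>
    obtain ⟨y₁, h₁, hr₁⟩ := ih (List.nodup_cons.1 hnd).2
    have hj : j ∉ js := (List.nodup_cons.1 hnd).1
    set J : Finset (Fin k) :=
      Finset.univ.filter fun i => (∃ a, x i = Sum.inl a) ∨ ∃ c j, j ∈ js ∧ x i = Sum.inr (c, j) with hJ
    set T : Finset (Fin k) := Finset.univ.filter fun i => ∃ c, x i = Sum.inr (c, j) with hT
    obtain ⟨f, hfi⟩ : ∃ f : Fin k → Fin N, ∀ i c, x i = Sum.inr (c, j) → f i = s c j := by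
      refine ⟨fun i => Sum.elim (fun _ => ⟨0, hN⟩) (fun l => s l.1 j) (x i), ?_⟩
      intro i c hc
      simp only [hc, Sum.elim_inr]
    have hleaf : ∀ i, i ∉ J → ∃ l, x i = Sum.inr l := by
      intro i hi
      rcases hxi : x i with a | l
      · exact absurd (by rw [hJ, Finset.mem_filter]; exact ⟨Finset.mem_univ _, Or.inl ⟨a, hxi⟩⟩) hi
      · exact ⟨l, rfl⟩
    have hinj : Set.InjOn f T := by
      intro i hi i' hi' hii
      obtain ⟨c, hc⟩ := (Finset.mem_filter.1 (Finset.mem_coe.1 hi)).2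
      obtain ⟨c', hc'⟩ := (Finset.mem_filter.1 (Finset.mem_coe.1 hi')).2
      rw [hfi i c hc, hfi i' c' hc'] at hii
      exact hcol i i' c c' j hc hc' hii
    have hTl : ∀ i ∈ T, ∃ l, x i = Sum.inr l ∧ l ∈ lv s j (f i) := by
      intro i hi
      obtain ⟨c, hc⟩ := (Finset.mem_filter.1 hi).2
      exact ⟨(c, j), hc, mem_lv.2 (hfi i c hc).symm⟩
    have hd : Disjoint J T := by
      rw [Finset.disjoint_left]
      intro i hi hi'
      obtain ⟨c, hc⟩ := (Finset.mem_filter.1 hi').2
      rcases (Finset.mem_filter.1 hi).2 with ⟨a, ha⟩ | ⟨c', j', hj', hc'⟩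
      · rw [ha] at hc
        simp at hc
      · rw [hc'] at hc
        have h2 := (Prod.ext_iff.1 (Sum.inr_injective hc)).2
        simp only at h2
        exact hj (h2 ▸ hj')
    obtain ⟨y₂, h₂, hr₂⟩ := pass_step hkh (lv s j) hleaf h₁ f (List.finRange N) (List.nodup_finRange N) T hinj
      (fun i _ => List.mem_finRange _) hTl hd
    refine ⟨y₂, ?_, ?_⟩
    · have heq : (Finset.univ.filter fun i => (∃ a, x i = Sum.inl a) ∨ ∃ c j', j' ∈ j :: js ∧ x i = Sum.inr (c, j')) =
          J ∪ T := by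
        ext i
        rw [Finset.mem_union, Finset.mem_filter, Finset.mem_filter, Finset.mem_filter]
        constructor
        · rintro ⟨-, h3 | ⟨c, j', hj', hc⟩⟩
          · exact Or.inl ⟨Finset.mem_univ _, Or.inl h3⟩
          · rcases List.mem_cons.1 hj' with rfl | hj'
            · exact Or.inr ⟨Finset.mem_univ _, c, hc⟩
            · exact Or.inl ⟨Finset.mem_univ _, Or.inr ⟨c, j', hj', hc⟩⟩
        · rintro (⟨-, h3 | ⟨c, j', hj', hc⟩⟩ | ⟨-, c, hc⟩)
          · exact ⟨Finset.mem_univ _, Or.inl h3⟩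
          · exact ⟨Finset.mem_univ _, Or.inr ⟨c, j', List.mem_cons_of_mem _ hj', hc⟩⟩
          · exact ⟨Finset.mem_univ _, Or.inr ⟨c, j, List.mem_cons_self, hc⟩⟩
      rw [heq]
      exact h₂
    · have hp : passes h s (j :: js) = pass h (lv s j) (List.finRange N) ++ passes h s js := by
        unfold passes
        rw [List.map_cons, List.flatten_cons]
      rw [hp]
      exact Rt.append hr₁ hr₂

/-- the inner gates of the clusters `cs` -/
def innerL (h : ℕ) (I : List (Fin g × Fin g)) (cs : List (Fin M)) :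
    List ((Fin (h + 1) ⊕ (Fin M × Fin g)) × (Fin (h + 1) ⊕ (Fin M × Fin g))) :=
  (cs.map fun c => I.map fun p => (Sum.inr (c, p.1), Sum.inr (c, p.2))).flatten

/-- the positions after the inner gates of the clusters `cs` -/
def mv (σ : Fin M → Equiv.Perm (Fin g)) (cs : List (Fin M)) : Fin (h + 1) ⊕ (Fin M × Fin g) → Fin (h + 1) ⊕ (Fin M × Fin g)
  | .inl a => .inl a
  | .inr (c, j) => if c ∈ cs then .inr (c, σ c j) else .inr (c, j)

theorem inner_rt (I : List (Fin g × Fin g)) (S : Fin M → List (Fin g × Fin g)) (hS : ∀ c, (S c).Sublist I)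
    (x : Fin k → Fin (h + 1) ⊕ (Fin M × Fin g)) (cs : List (Fin M)) (hnd : cs.Nodup) :
    Rt (innerL h I cs) x (fun i => mv (fun c => ((S c).map fun p => Equiv.swap p.1 p.2).prod) cs (x i)) := by
  induction cs with
  | nil =>
    have h1 : (fun i => mv (fun c => ((S c).map fun p => Equiv.swap p.1 p.2).prod) ([] : List (Fin M)) (x i)) = x := by
      funext i
      rcases x i with a | ⟨c, j⟩
      · rfl
      · simp [mv]
    rw [h1]
    exact Rt.refl _ _
  | cons c cs ih =>
    have h1 : innerL h I (c :: cs) = (I.map fun p => ((Sum.inr (c, p.1) : Fin (h + 1) ⊕ (Fin M × Fin g)),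
        (Sum.inr (c, p.2) : Fin (h + 1) ⊕ (Fin M × Fin g)))) ++ innerL h I cs := by
      unfold innerL
      rw [List.map_cons, List.flatten_cons]
    rw [h1]
    refine Rt.append (ih (List.nodup_cons.1 hnd).2) ?_
    have hc : c ∉ cs := (List.nodup_cons.1 hnd).1
    let e : Fin g → Fin (h + 1) ⊕ (Fin M × Fin g) := fun a => Sum.inr (c, a)
    have he : Function.Injective e := by
      intro a a' haa
      exact (Prod.ext_iff.1 (Sum.inr_injective haa)).2
    refine ⟨(S c).map fun p => (e p.1, e p.2), (hS c).map _, fun i => ?_⟩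
    beta_reduce
    rcases x i with a | ⟨c', j⟩
    · exact prod_map_ne e (S c) (Sum.inl a) (fun a' => by simp [e])
    · by_cases hcc : c' = c
      · subst hcc
        have h2 : mv (h := h) (fun c => ((S c).map fun p => Equiv.swap p.1 p.2).prod) cs (Sum.inr (c', j)) = e j := by
          simp [mv, hc, e]
        have h3 : mv (h := h) (fun c => ((S c).map fun p => Equiv.swap p.1 p.2).prod) (c' :: cs) (Sum.inr (c', j)) =
            e (((S c').map fun p => Equiv.swap p.1 p.2).prod j) := by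
          simp [mv, e]
        rw [h2, h3]
        exact prod_map_emb e he (S c') j
      · have h2 : ∀ a, e a ≠ mv (h := h) (fun c => ((S c).map fun p => Equiv.swap p.1 p.2).prod) cs (Sum.inr (c', j)) := by
          intro a h4
          by_cases h5 : c' ∈ cs
          · simp only [mv, h5, if_true, e] at h4
            exact hcc (Prod.ext_iff.1 (Sum.inr_injective h4)).1.symm
          · simp only [mv, h5, if_false, e] at h4
            exact hcc (Prod.ext_iff.1 (Sum.inr_injective h4)).1.symm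
        rw [prod_map_ne e (S c) _ h2]
        by_cases h5 : c' ∈ cs
        · simp [mv, h5]
        · simp [mv, h5, hcc]

/-- the in-phase -/
noncomputable def inL (h : ℕ) (I : List (Fin g × Fin g)) (s : Fin M → Fin g → Fin N) :
    List ((Fin (h + 1) ⊕ (Fin M × Fin g)) × (Fin (h + 1) ⊕ (Fin M × Fin g))) :=
  passes h s (List.finRange g) ++ innerL h I (List.finRange M)

theorem in_ok (hkh : k ≤ h) (hN : 0 < N) (I : List (Fin g × Fin g)) {r : ℕ} (hr : k < 2 * (r + 1))
    (hI : ∀ (o : Fin g) (T : Finset (Fin g)), T.card ≤ r → ∃ S : List (Fin g × Fin g), S.Sublist I ∧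
      ∀ a ∈ T, (S.map fun c => Equiv.swap c.1 c.2).prod a ≠ o) (s : Fin M → Fin g → Fin N)
    (hord : ∀ (A : Finset (Fin M)), A.card ≤ k → ∀ c₀ : Fin M, ∃ o : Fin M → Fin g, ∀ c ∈ A, ∀ c' ∈ A, c ≠ c' →
      ∀ j, s c j = s c' j → (c ≠ c₀ ∧ o c = j) ∨ (c' ≠ c₀ ∧ o c' = j))
    {x : Fin k → Fin (h + 1) ⊕ (Fin M × Fin g)} (hx : Function.Injective x) :
    ∃ y : Fin k → Fin (h + 1), Function.Injective y ∧ Rt (inL h I s) x (fun i => Sum.inl (y i)) := by
  classical
  rcases isEmpty_or_nonempty (Fin M) with hM | hM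
  · have h1 : ∀ i, ∃ a, x i = Sum.inl a := by
      intro i
      rcases hxi : x i with a | ⟨c, j⟩
      · exact ⟨a, rfl⟩
      · exact hM.elim c
    choose y hy using h1
    refine ⟨y, ?_, ?_⟩
    · intro i i' hii
      exact hx (by rw [hy, hy, hii])
    · have h2 : (fun i => (Sum.inl (y i) : Fin (h + 1) ⊕ (Fin M × Fin g))) = x := by
        funext i
        exact (hy i).symm
      rw [h2]
      exact Rt.refl _ _
  -- the tokens of a cluster
  set U : Fin M → Finset (Fin k) := fun c => Finset.univ.filter fun i => ∃ a, x i = Sum.inr (c, a) with hU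
  set T : Fin M → Finset (Fin g) := fun c => Finset.univ.filter fun a => ∃ i, x i = Sum.inr (c, a) with hT
  have hmU : ∀ {c i}, i ∈ U c ↔ ∃ a, x i = Sum.inr (c, a) := by
    intro c i
    rw [hU]
    simp
  have hmT : ∀ {c a}, a ∈ T c ↔ ∃ i, x i = Sum.inr (c, a) := by
    intro c i
    rw [hT]
    simp
  have hTU : ∀ c, (T c).card ≤ (U c).card := by
    intro c
    have h1 : (T c).image (fun a => (Sum.inr (c, a) : Fin (h + 1) ⊕ (Fin M × Fin g))) ⊆ (U c).image x := by
      intro w hw
      obtain ⟨a, ha, rfl⟩ := Finset.mem_image.1 hw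
      obtain ⟨i, hi⟩ := hmT.1 ha
      exact Finset.mem_image.2 ⟨i, hmU.2 ⟨a, hi⟩, hi⟩
    have h2 : ((T c).image (fun a => (Sum.inr (c, a) : Fin (h + 1) ⊕ (Fin M × Fin g)))).card = (T c).card := by
      apply Finset.card_image_of_injective
      intro a a' haa
      exact (Prod.ext_iff.1 (Sum.inr_injective haa)).2
    calc (T c).card = _ := h2.symm
      _ ≤ _ := Finset.card_le_card h1
      _ ≤ _ := Finset.card_image_le
  have hdisj : ∀ c c', c ≠ c' → Disjoint (U c) (U c') := by
    intro c c' hcc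
    rw [Finset.disjoint_left]
    intro i hi hi'
    obtain ⟨a, ha⟩ := hmU.1 hi
    obtain ⟨a', ha'⟩ := hmU.1 hi'
    rw [ha] at ha'
    exact hcc (Prod.ext_iff.1 (Sum.inr_injective ha')).1
  obtain ⟨c₀, -, hc₀⟩ := Finset.exists_max_image (Finset.univ : Finset (Fin M)) (fun c => (U c).card) Finset.univ_nonempty
  have hTr : ∀ c, c ≠ c₀ → (T c).card ≤ r := by
    intro c hc
    have h1 : (U c).card ≤ (U c₀).card := hc₀ c (Finset.mem_univ _)
    have h2 : (U c ∪ U c₀).card = (U c).card + (U c₀).card := Finset.card_union_of_disjoint (hdisj c c₀ hc)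
    have h3 : (U c ∪ U c₀).card ≤ k := by
      have := Finset.card_le_univ (U c ∪ U c₀)
      rwa [Fintype.card_fin] at this
    have h4 := hTU c
    omega
  set A : Finset (Fin M) := Finset.univ.filter fun c => (U c).Nonempty with hA
  have hAk : A.card ≤ k := by
    have h1 : A.card ≤ (A.biUnion U).card := by
      apply Finset.card_le_card_biUnion
      · intro c _ c' _ hcc
        exact hdisj c c' hcc
      · intro c hc
        exact (Finset.mem_filter.1 hc).2
    have h2 := Finset.card_le_univ (A.biUnion U)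
    rw [Fintype.card_fin] at h2
    omega
  obtain ⟨o, ho⟩ := hord A hAk c₀
  have hS : ∀ c, ∃ S : List (Fin g × Fin g), S.Sublist I ∧
      (c ≠ c₀ → ∀ a ∈ T c, (S.map fun c => Equiv.swap c.1 c.2).prod a ≠ o c) := by
    intro c
    by_cases hc : c = c₀
    · exact ⟨[], List.nil_sublist _, fun h => absurd hc h⟩
    · obtain ⟨S, hS, hS'⟩ := hI (o c) (T c) (hTr c hc)
      exact ⟨S, hS, fun _ => hS'⟩
  choose S hSI hSo using hS
  have hrt := inner_rt (h := h) I S hSI x (List.finRange M) (List.nodup_finRange M)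
  set x₁ : Fin k → Fin (h + 1) ⊕ (Fin M × Fin g) :=
    fun i => mv (fun c => ((S c).map fun p => Equiv.swap p.1 p.2).prod) (List.finRange M) (x i) with hx₁
  have hx₁i : Function.Injective x₁ := hrt.injective hx
  have hback : ∀ i c j, x₁ i = Sum.inr (c, j) → c ∈ A ∧ ∃ a ∈ T c, ((S c).map fun p => Equiv.swap p.1 p.2).prod a = j := by
    intro i c j hij
    rw [hx₁] at hij
    rcases hxi : x i with a | ⟨c', a⟩
    · simp [hxi, mv] at hij
    · simp only [hxi, mv, List.mem_finRange, if_true] at hij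
      have h1 := Prod.ext_iff.1 (Sum.inr_injective hij)
      simp only at h1
      obtain ⟨rfl, h2⟩ := h1
      refine ⟨Finset.mem_filter.2 ⟨Finset.mem_univ _, i, hmU.2 ⟨a, hxi⟩⟩, a, hmT.2 ⟨i, hxi⟩, h2⟩
  have hcol : ∀ i i' c c' j, x₁ i = Sum.inr (c, j) → x₁ i' = Sum.inr (c', j) → s c j = s c' j → i = i' := by
    intro i i' c c' j hi hi' hs
    by_cases hcc : c = c'
    · subst hcc
      exact hx₁i (hi.trans hi'.symm)
    · exfalso
      obtain ⟨hcA, a, haT, ha⟩ := hback i c j hi
      obtain ⟨hcA', a', haT', ha'⟩ := hback i' c' j hi'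
      rcases ho c hcA c' hcA' hcc j hs with ⟨h1, h2⟩ | ⟨h1, h2⟩
      · exact hSo c h1 a haT (ha.trans h2.symm)
      · exact hSo c' h1 a' haT' (ha'.trans h2.symm)
  obtain ⟨y, hy, hry⟩ := passes_step hkh hN s hx₁i hcol (List.finRange g) (List.nodup_finRange g)
  have hall : ∀ i, ∃ j, y i = Sum.inl j := by
    intro i
    apply hy.hub i
    rw [Finset.mem_filter]
    refine ⟨Finset.mem_univ _, ?_⟩
    rcases hxi : x₁ i with a | ⟨c, j⟩
    · exact Or.inl ⟨a, rfl⟩
    · exact Or.inr ⟨c, j, List.mem_finRange j, rfl⟩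
  choose z hz using hall
  refine ⟨z, ?_, ?_⟩
  · intro i i' hii
    exact hy.inj (by rw [hz, hz, hii])
  · have h2 : (fun i => (Sum.inl (z i) : Fin (h + 1) ⊕ (Fin M × Fin g))) = y := by
      funext i
      exact (hz i).symm
    rw [h2]
    exact Rt.append hrt hry

end clusters

end Pool.Agent.LT4
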