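import Pool.Agent.LT74.Low
import Pool.Agent.LT4.RouteC

/-!
# [LT4-LowK] the calls with two reached positions (helper1)

A network which brings `k` tokens from fixed positions to all `k`-tuples has at least `(1 - 2 ^ (-r)) (n - k)` calls both
positions of which are reached, `r = ⌊k / 2⌋`: in reverse time, every position gets the size `e` of a set of final positions which
forces a token to be there, and the weights `2 ^ (r + 1 - e) - 1` are counted.
-/

set_option autoImplicit false

namespace Pool.Agent.LT4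

open Pool.Agent.LT74

section psi

/-- the weight -/
def psi (r e : ℕ) : ℕ := 2 ^ (r + 1 - e) - 1

theorem psi_big {r e : ℕ} (h : r < e) : psi r e = 0 := by
  rw [psi, show r + 1 - e = 0 by omega]
  rfl

theorem psi_le {r e : ℕ} (h : 1 ≤ e) : psi r e ≤ 2 ^ r - 1 := by
  have h1 : 2 ^ (r + 1 - e) ≤ 2 ^ r := Nat.pow_le_pow_right (by norm_num) (by omega)
  unfold psi
  omega

theorem psi_add (r : ℕ) {a b : ℕ} (ha : 1 ≤ a) (hb : 1 ≤ b) : psi r a + psi r b ≤ 2 * psi r (a + b) + 2 ^ r := by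
  have hr : 1 ≤ 2 ^ r := Nat.one_le_two_pow
  by_cases h1 : r < a
  · have := psi_le (r := r) hb
    rw [psi_big h1]
    omega
  by_cases h2 : r < b
  · have := psi_le (r := r) ha
    rw [psi_big h2]
    omega
  by_cases h3 : a + b ≤ r + 1
  · obtain ⟨t, ht⟩ : ∃ t, r + 1 = a + b + t := ⟨r + 1 - (a + b), by omega⟩
    obtain ⟨a, rfl⟩ : ∃ a', a = a' + 1 := ⟨a - 1, by omega⟩
    obtain ⟨b, rfl⟩ : ∃ b', b = b' + 1 := ⟨b - 1, by omega⟩
    have e1 : r + 1 - (a + 1) = t + b + 1 := by omega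
    have e2 : r + 1 - (b + 1) = t + a + 1 := by omega
    have e3 : r + 1 - (a + 1 + (b + 1)) = t := by omega
    have e4 : r = t + a + b + 1 := by omega
    unfold psi
    rw [e1, e2, e3, e4]
    have h5 : 1 ≤ 2 ^ t := Nat.one_le_two_pow
    have h6 : 1 ≤ 2 ^ a := Nat.one_le_two_pow
    have h7 : 1 ≤ 2 ^ b := Nat.one_le_two_pow
    obtain ⟨T, hT⟩ : ∃ T, T = 2 ^ t := ⟨_, rfl⟩
    obtain ⟨P, hP⟩ : ∃ P, P + 1 = 2 ^ a := ⟨2 ^ a - 1, by omega⟩
    obtain ⟨Q, hQ⟩ : ∃ Q, Q + 1 = 2 ^ b := ⟨2 ^ b - 1, by omega⟩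
    have h8 : 2 ^ (t + b + 1) = 2 * (T * (Q + 1)) := by rw [pow_add, pow_add, hT, hQ]; ring
    have h9 : 2 ^ (t + a + 1) = 2 * (T * (P + 1)) := by rw [pow_add, pow_add, hT, hP]; ring
    have h10 : 2 ^ (t + a + b + 1) = 2 * (T * ((P + 1) * (Q + 1))) := by
      rw [pow_add, pow_add, pow_add, hT, hP, hQ]; ring
    rw [h8, h9, h10, ← hT]
    have h11 : 2 * (T * (Q + 1)) + 2 * (T * (P + 1)) ≤ 2 * T + 2 * (T * ((P + 1) * (Q + 1))) := by
      nlinarith [Nat.zero_le (T * (P * Q))]
    have h12 : 1 ≤ T := by omega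
    have h13 : 1 ≤ T * (Q + 1) := Nat.mul_pos h12 (by omega)
    have h14 : 1 ≤ T * (P + 1) := Nat.mul_pos h12 (by omega)
    omega
  · have h4 : psi r (a + b) = 0 := psi_big (by omega)
    rw [h4]
    unfold psi
    have h5 : 2 ^ (r + 1 - a) * 2 ^ (r + 1 - b) ≤ 2 ^ r := by
      rw [← pow_add]
      exact Nat.pow_le_pow_right (by norm_num) (by omega)
    have h6 : 2 ^ 1 ≤ 2 ^ (r + 1 - a) := Nat.pow_le_pow_right (by norm_num) (by omega)
    have h7 : 2 ^ 1 ≤ 2 ^ (r + 1 - b) := Nat.pow_le_pow_right (by norm_num) (by omega)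
    obtain ⟨P, hP⟩ : ∃ P, 2 ^ (r + 1 - a) = P + 2 := ⟨2 ^ (r + 1 - a) - 2, by omega⟩
    obtain ⟨Q, hQ⟩ : ∃ Q, 2 ^ (r + 1 - b) = Q + 2 := ⟨2 ^ (r + 1 - b) - 2, by omega⟩
    rw [hP, hQ] at h5 ⊢
    have h8 : (P + 2) * (Q + 2) = P * Q + 2 * P + 2 * Q + 4 := by ring
    rw [h8] at h5
    omega

end psi

section

variable {V : Type} [DecidableEq V]

/-- the number of calls with two positions reached from `X` -/
def nE : List (V × V) → Finset V → ℕ
  | [], _ => 0
  | c :: L, X => nE L X + if c.1 ∈ al L X ∧ c.2 ∈ al L X then 1 else 0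

theorem nA_eq (L : List (V × V)) (hL : ∀ c ∈ L, c.1 ≠ c.2) (X : Finset V) :
    nA L X + X.card = nE L X + (al L X).card := by
  induction L with
  | nil => simp [nA, nE, al]
  | cons c L ih =>
    have ih := ih fun c hc => hL c (List.mem_cons_of_mem _ hc)
    have hne := hL c List.mem_cons_self
    rw [nA, nE, al]
    by_cases h1 : c.1 ∈ al L X
    · by_cases h2 : c.2 ∈ al L X
      · rw [if_pos (Or.inl h1), if_pos ⟨h1, h2⟩, if_pos (Or.inl h1), Finset.insert_eq_of_mem h2,
          Finset.insert_eq_of_mem h1]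
        omega
      · rw [if_pos (Or.inl h1), if_neg (fun h => h2 h.2), if_pos (Or.inl h1),
          Finset.insert_eq_of_mem (Finset.mem_insert_of_mem h1), Finset.card_insert_of_notMem h2]
        omega
    · by_cases h2 : c.2 ∈ al L X
      · rw [if_pos (Or.inr h2), if_neg (fun h => h1 h.1), if_pos (Or.inr h2), Finset.insert_eq_of_mem h2,
          Finset.card_insert_of_notMem h1]
        omega
      · rw [if_neg (by tauto), if_neg (fun h => h1 h.1), if_neg (by tauto)]
        omega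

theorem Rt.cons_inv {ι : Type} {c : V × V} {B : List (V × V)} {x z : ι → V} (h : Rt (c :: B) x z) :
    ∃ z', Rt B x z' ∧ ((∀ i, z i = z' i) ∨ ∀ i, z i = Equiv.swap c.1 c.2 (z' i)) := by
  obtain ⟨S, hS, h⟩ := h
  rcases List.sublist_cons_iff.1 hS with h1 | ⟨S', rfl, h1⟩
  · exact ⟨z, ⟨S, h1, h⟩, Or.inl fun _ => rfl⟩
  · refine ⟨fun i => (S'.map fun c => Equiv.swap c.1 c.2).prod (x i), ⟨S', h1, fun _ => rfl⟩, Or.inr fun i => ?_⟩
    rw [← h i, List.map_cons, List.prod_cons, Equiv.Perm.mul_apply]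

theorem Rt.append_inv {ι : Type} {A B : List (V × V)} {x y : ι → V} (h : Rt (A ++ B) x y) :
    ∃ z, Rt B x z ∧ Rt A z y := by
  obtain ⟨S, hS, h⟩ := h
  obtain ⟨S₁, S₂, rfl, h1, h2⟩ := List.sublist_append_iff.1 hS
  refine ⟨fun i => (S₂.map fun c => Equiv.swap c.1 c.2).prod (x i), ⟨S₂, h2, fun _ => rfl⟩, S₁, h1, fun i => ?_⟩
  rw [← h i, List.map_append, List.prod_append, Equiv.Perm.mul_apply]

theorem swap_mem {c : V × V} {R : Finset V} {q : V} (hq : q ∈ R) (h1 : c.1 ∈ R) (h2 : c.2 ∈ R) :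
    Equiv.swap c.1 c.2 q ∈ R := by
  rw [Equiv.swap_apply_def]
  split_ifs
  · exact h2
  · exact h1
  · exact hq

theorem al_cons_subset (c : V × V) (B : List (V × V)) (X : Finset V) : al B X ⊆ al (c :: B) X := by
  rw [al]
  split_ifs
  · exact fun p hp => Finset.mem_insert_of_mem (Finset.mem_insert_of_mem hp)
  · exact fun p hp => hp

theorem swap_mem_al {c : V × V} {B : List (V × V)} {X : Finset V} {q : V} (hq : q ∈ al B X) :
    Equiv.swap c.1 c.2 q ∈ al (c :: B) X := by
  by_cases h : c.1 ∈ al B X ∨ c.2 ∈ al B X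
  · rw [al, if_pos h]
    exact swap_mem (Finset.mem_insert_of_mem (Finset.mem_insert_of_mem hq)) (Finset.mem_insert_self _ _)
      (Finset.mem_insert_of_mem (Finset.mem_insert_self _ _))
  · rw [al, if_neg h]
    rw [not_or] at h
    rw [Equiv.swap_apply_of_ne_of_ne]
    · exact hq
    · rintro rfl
      exact h.1 hq
    · rintro rfl
      exact h.2 hq

theorem Rt.mem_al {ι : Type} {B : List (V × V)} {X : Finset V} {x z : ι → V} (h : Rt B x z) (hx : ∀ i, x i ∈ X) (i : ι) :
    z i ∈ al B X := by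
  induction B generalizing z with
  | nil =>
    obtain ⟨S, hS, h⟩ := h
    rw [List.sublist_nil] at hS
    subst hS
    rw [← h i]
    exact hx i
  | cons c B ih =>
    obtain ⟨z', h1, h2⟩ := h.cons_inv
    rcases h2 with h2 | h2
    · rw [h2 i]
      exact al_cons_subset c B X (ih h1)
    · rw [h2 i]
      exact swap_mem_al (ih h1)

/-- the set `F` of final positions forces a token to be at `p` before the calls of `A` -/
def Forces (k : ℕ) (A : List (V × V)) (R : Finset V) (p : V) (F : Finset V) : Prop :=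
  ∀ z y : Fin k → V, Function.Injective z → (∀ i, z i ∈ R) → Rt A z y → (∀ q ∈ F, ∃ i, y i = q) → ∃ i, z i = p

/-- one forced token before the call `c` -/
theorem forces_one {k : ℕ} {A B : List (V × V)} {X : Finset V} {c : V × V} {p : V} {F : Finset V}
    (h : Forces k A (al (c :: B) X) p F) {z y : Fin k → V} (hz : Function.Injective z) (hzR : ∀ i, z i ∈ al B X)
    (hr : Rt (A ++ [c]) z y) (hF : ∀ q ∈ F, ∃ i, y i = q) :
    (∃ i, z i = p) ∨ ∃ i, z i = Equiv.swap c.1 c.2 p := by
  obtain ⟨w, h1, h2⟩ := hr.append_inv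
  obtain ⟨w', h3, h4⟩ := h1.cons_inv
  have h5 : w' = z := by
    obtain ⟨S, hS, h5⟩ := h3
    rw [List.sublist_nil] at hS
    subst hS
    funext i
    rw [← h5 i]
    rfl
  subst h5
  rcases h4 with h4 | h4
  · left
    have h6 : w = w' := funext h4
    rw [h6] at h2
    exact h w' y hz (fun i => al_cons_subset c B X (hzR i)) h2 hF
  · right
    have h6 : w = fun i => Equiv.swap c.1 c.2 (w' i) := funext h4
    rw [h6] at h2
    obtain ⟨i, hi⟩ := h _ y ((Equiv.injective _).comp hz) (fun i => swap_mem_al (hzR i)) h2 hF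
    refine ⟨i, ?_⟩
    rw [← hi, Function.comp_apply, Equiv.swap_apply_self]

/-- two forced tokens before the call `c` -/
theorem forces_two {k : ℕ} {A B : List (V × V)} {X : Finset V} {c : V × V} {F F' : Finset V}
    (h : Forces k A (al (c :: B) X) c.1 F) (h' : Forces k A (al (c :: B) X) c.2 F') {z y : Fin k → V}
    (hz : Function.Injective z) (hzR : ∀ i, z i ∈ al B X)
    (hr : Rt (A ++ [c]) z y) (hF : ∀ q ∈ F, ∃ i, y i = q) (hF' : ∀ q ∈ F', ∃ i, y i = q) :
    (∃ i, z i = c.1) ∧ ∃ i, z i = c.2 := by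
  obtain ⟨w, h1, h2⟩ := hr.append_inv
  obtain ⟨w', h3, h4⟩ := h1.cons_inv
  have h5 : w' = z := by
    obtain ⟨S, hS, h5⟩ := h3
    rw [List.sublist_nil] at hS
    subst hS
    funext i
    rw [← h5 i]
    rfl
  subst h5
  rcases h4 with h4 | h4
  · have h6 : w = w' := funext h4
    rw [h6] at h2
    exact ⟨h w' y hz (fun i => al_cons_subset c B X (hzR i)) h2 hF,
      h' w' y hz (fun i => al_cons_subset c B X (hzR i)) h2 hF'⟩
  · have h6 : w = fun i => Equiv.swap c.1 c.2 (w' i) := funext h4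
    rw [h6] at h2
    obtain ⟨i, hi⟩ := h _ y ((Equiv.injective _).comp hz) (fun i => swap_mem_al (hzR i)) h2 hF
    obtain ⟨i', hi'⟩ := h' _ y ((Equiv.injective _).comp hz) (fun i => swap_mem_al (hzR i)) h2 hF'
    constructor
    · refine ⟨i', ?_⟩
      have h7 : Equiv.swap c.1 c.2 (Equiv.swap c.1 c.2 (w' i')) = Equiv.swap c.1 c.2 c.2 := congrArg _ hi'
      rwa [Equiv.swap_apply_self, Equiv.swap_apply_right] at h7
    · refine ⟨i, ?_⟩
      have h7 : Equiv.swap c.1 c.2 (Equiv.swap c.1 c.2 (w' i)) = Equiv.swap c.1 c.2 c.1 := congrArg _ hi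
      rwa [Equiv.swap_apply_self, Equiv.swap_apply_left] at h7

omit [DecidableEq V] in
theorem exists_target [Fintype V] {k : ℕ} (hk : k ≤ Fintype.card V) (F : Finset V) (hF : F.card ≤ k) :
    ∃ y : Fin k → V, Function.Injective y ∧ ∀ q ∈ F, ∃ i, y i = q := by
  obtain ⟨G, hG1, -, hG2⟩ := Finset.exists_subsuperset_card_eq (Finset.subset_univ F) hF (by rwa [Finset.card_univ])
  let e : Fin k ≃ G := (Finset.equivFinOfCardEq hG2).symm
  refine ⟨fun i => e i, ?_, ?_⟩
  · intro i i' hii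
    exact e.injective (Subtype.ext hii)
  · intro q hq
    exact ⟨e.symm ⟨q, hG1 hq⟩, by simp⟩

theorem sum_two [Fintype V] {f g : V → ℕ} {u v : V} (huv : u ≠ v) (h : ∀ p, p ≠ u → p ≠ v → f p = g p) {t : ℕ}
    (ht : f u + f v ≤ g u + g v + t) : ∑ p, f p ≤ ∑ p, g p + t := by
  have h1 : ∀ f : V → ℕ, ∑ p, f p = f u + (f v + ∑ p ∈ (Finset.univ.erase u).erase v, f p) := by
    intro f
    rw [Finset.add_sum_erase _ f (Finset.mem_erase.2 ⟨huv.symm, Finset.mem_univ v⟩),
      Finset.add_sum_erase _ f (Finset.mem_univ u)]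
  rw [h1 f, h1 g]
  have h2 : ∑ p ∈ (Finset.univ.erase u).erase v, f p = ∑ p ∈ (Finset.univ.erase u).erase v, g p := by
    apply Finset.sum_congr rfl
    intro p hp
    rw [Finset.mem_erase, Finset.mem_erase] at hp
    exact h p hp.2.1 hp.1
  rw [h2]
  omega

/-- the step for a call with exactly one reached position `u` -/
theorem step_dist [Fintype V] {k r : ℕ} (hr : 2 * r ≤ k) (hk : k ≤ Fintype.card V) {x : Fin k → V}
    (hx : Function.Injective x) {X : Finset V} (hX : ∀ i, x i ∈ X) {A B : List (V × V)} {c : V × V}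
    (hL : ∀ y : Fin k → V, Function.Injective y → Rt ((A ++ [c]) ++ B) x y) {u v : V}
    (huv : u = c.1 ∧ v = c.2 ∨ u = c.2 ∧ v = c.1) (hne : u ≠ v) (hu : u ∈ al B X) (hv : v ∉ al B X) {e : V → ℕ}
    (he1 : ∀ p, 1 ≤ e p)
    (he2 : ∀ p, e p ≤ r → ∃ F : Finset V, F.card ≤ e p ∧ Forces k A (al (c :: B) X) p F)
    (he3 : ∀ p, p ∉ al (c :: B) X → r < e p) :
    ∃ e' : V → ℕ, (∀ p, 1 ≤ e' p) ∧ (∀ p, e' p ≤ r → ∃ F : Finset V, F.card ≤ e' p ∧ Forces k (A ++ [c]) (al B X) p F) ∧
      (∀ p, p ∉ al B X → r < e' p) ∧ ∑ p, psi r (e p) ≤ ∑ p, psi r (e' p) := by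
  have hsw : Equiv.swap c.1 c.2 u = v ∧ Equiv.swap c.1 c.2 v = u := by
    rcases huv with ⟨rfl, rfl⟩ | ⟨rfl, rfl⟩
    · exact ⟨Equiv.swap_apply_left _ _, Equiv.swap_apply_right _ _⟩
    · exact ⟨Equiv.swap_apply_right _ _, Equiv.swap_apply_left _ _⟩
  have hother : ∀ p, p ≠ u → p ≠ v → Equiv.swap c.1 c.2 p = p := by
    intro p h1 h2
    rcases huv with ⟨rfl, rfl⟩ | ⟨rfl, rfl⟩
    · exact Equiv.swap_apply_of_ne_of_ne h1 h2
    · exact Equiv.swap_apply_of_ne_of_ne h2 h1
  -- not both are forced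
  have hboth : ¬ (e u ≤ r ∧ e v ≤ r) := by
    rintro ⟨h1, h2⟩
    have h3 : e c.1 ≤ r ∧ e c.2 ≤ r := by
      rcases huv with ⟨rfl, rfl⟩ | ⟨rfl, rfl⟩
      · exact ⟨h1, h2⟩
      · exact ⟨h2, h1⟩
    obtain ⟨F₁, hF₁, hf₁⟩ := he2 c.1 h3.1
    obtain ⟨F₂, hF₂, hf₂⟩ := he2 c.2 h3.2
    obtain ⟨y, hy, hyF⟩ := exists_target hk (F₁ ∪ F₂) ((Finset.card_union_le _ _).trans (by omega))
    obtain ⟨z, hz1, hz2⟩ := (hL y hy).append_inv
    have hzR : ∀ i, z i ∈ al B X := fun i => hz1.mem_al hX i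
    obtain ⟨⟨i, hi⟩, ⟨i', hi'⟩⟩ := forces_two hf₁ hf₂ (hz1.injective hx) hzR hz2
      (fun q hq => hyF q (Finset.mem_union_left _ hq)) (fun q hq => hyF q (Finset.mem_union_right _ hq))
    rcases huv with ⟨rfl, rfl⟩ | ⟨rfl, rfl⟩
    · exact hv (hi' ▸ hzR i')
    · exact hv (hi ▸ hzR i)
  refine ⟨fun p => if p = u then min (e u) (e v) else if p = v then r + 1 else e p, ?_, ?_, ?_, ?_⟩
  · intro p
    have h1 := he1 u
    have h2 := he1 v
    have h3 := he1 p
    simp only
    split_ifs <;> omega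
  · intro p hp
    simp only at hp ⊢
    by_cases h1 : p = u
    · subst h1
      rw [if_pos rfl] at hp ⊢
      rcases le_total (e p) (e v) with h2 | h2
      · rw [min_eq_left h2] at hp ⊢
        obtain ⟨F, hF, hf⟩ := he2 p hp
        refine ⟨F, hF, fun z y hz hzR hzy hy => ?_⟩
        rcases forces_one hf hz hzR hzy hy with h3 | ⟨i, hi⟩
        · exact h3
        · rw [hsw.1] at hi
          exact absurd (hi ▸ hzR i) hv
      · rw [min_eq_right h2] at hp ⊢
        obtain ⟨F, hF, hf⟩ := he2 v hp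
        refine ⟨F, hF, fun z y hz hzR hzy hy => ?_⟩
        rcases forces_one hf hz hzR hzy hy with ⟨i, hi⟩ | h3
        · exact absurd (hi ▸ hzR i) hv
        · rwa [hsw.2] at h3
    · rw [if_neg h1] at hp ⊢
      by_cases h2 : p = v
      · rw [if_pos h2] at hp
        omega
      · rw [if_neg h2] at hp ⊢
        obtain ⟨F, hF, hf⟩ := he2 p hp
        refine ⟨F, hF, fun z y hz hzR hzy hy => ?_⟩
        rcases forces_one hf hz hzR hzy hy with h3 | h3
        · exact h3
        · rwa [hother p h1 h2] at h3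
  · intro p hp
    have h1 : p ≠ u := fun h => hp (h ▸ hu)
    simp only
    rw [if_neg h1]
    split_ifs with h2
    · omega
    · apply he3
      rw [al]
      have h3 : p ≠ c.1 ∧ p ≠ c.2 := by
        rcases huv with ⟨rfl, rfl⟩ | ⟨rfl, rfl⟩
        · exact ⟨h1, h2⟩
        · exact ⟨h2, h1⟩
      split_ifs
      · rw [Finset.mem_insert, Finset.mem_insert]
        tauto
      · exact hp
  · have h1 := sum_two (f := fun p => psi r (e p))
      (g := fun p => psi r (if p = u then min (e u) (e v) else if p = v then r + 1 else e p)) (t := 0) hne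
      (fun p h1 h2 => by rw [if_neg h1, if_neg h2]) ?_
    · simpa using h1
    · rw [if_pos rfl, if_neg hne.symm, if_pos rfl]
      rcases le_total (e u) (e v) with h2 | h2
      · rw [min_eq_left h2]
        have h3 : psi r (e v) = 0 := psi_big (by omega)
        omega
      · rw [min_eq_right h2]
        have h3 : psi r (e u) = 0 := psi_big (by omega)
        omega

/-- the potential -/
theorem potential [Fintype V] {k r : ℕ} (hr : 2 * r ≤ k) (hk : k ≤ Fintype.card V) (hk0 : 0 < k) {x : Fin k → V}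
    (hx : Function.Injective x) {X : Finset V} (hX : ∀ i, x i ∈ X) {L : List (V × V)} (hne : ∀ c ∈ L, c.1 ≠ c.2)
    (hL : ∀ y : Fin k → V, Function.Injective y → Rt L x y) (A : List (V × V)) : ∀ B, A ++ B = L →
      ∃ e : V → ℕ, (∀ p, 1 ≤ e p) ∧ (∀ p, e p ≤ r → ∃ F : Finset V, F.card ≤ e p ∧ Forces k A (al B X) p F) ∧
        (∀ p, p ∉ al B X → r < e p) ∧
        (2 ^ r - 1) * Fintype.card V + 2 ^ r * nE B X ≤ ∑ p, psi r (e p) + 2 ^ r * nE L X := by
  induction A using List.reverseRecOn with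
  | nil =>
    intro B hB
    rw [List.nil_append] at hB
    subst hB
    refine ⟨fun _ => 1, fun _ => le_rfl, ?_, ?_, ?_⟩
    · intro p _
      refine ⟨{p}, by simp, ?_⟩
      intro z y _ _ hzy hF
      obtain ⟨i, hi⟩ := hF p (Finset.mem_singleton_self p)
      obtain ⟨S, hS, h5⟩ := hzy
      rw [List.sublist_nil] at hS
      subst hS
      exact ⟨i, by rw [← hi, ← h5 i]; rfl⟩
    · intro p hp
      exfalso
      obtain ⟨y, hy, hyp⟩ := exists_target hk {p} (by rw [Finset.card_singleton]; omega)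
      obtain ⟨i, hi⟩ := hyp p (Finset.mem_singleton_self p)
      apply hp
      rw [← hi]
      exact (hL y hy).mem_al hX i
    · have h1 : psi r 1 = 2 ^ r - 1 := by rw [psi, Nat.add_sub_cancel]
      rw [Finset.sum_const, Finset.card_univ, smul_eq_mul, h1, mul_comm]
  | append_singleton A c ih =>
    intro B hB
    obtain ⟨e, he1, he2, he3, he4⟩ := ih (c :: B) (by rw [← hB, List.append_assoc, List.singleton_append])
    have hcL : c.1 ≠ c.2 := hne c (by rw [← hB]; simp)
    -- forced sets away from `c`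
    have hold : ∀ p, p ≠ c.1 → p ≠ c.2 → ∀ F, Forces k A (al (c :: B) X) p F → Forces k (A ++ [c]) (al B X) p F := by
      intro p h1 h2 F hF z y hz hzR hzy hy
      rcases forces_one hF hz hzR hzy hy with h | h
      · exact h
      · rwa [Equiv.swap_apply_of_ne_of_ne h1 h2] at h
    by_cases hu : c.1 ∈ al B X
    · by_cases hv : c.2 ∈ al B X
      · -- two reached positions
        have hal : al (c :: B) X = al B X := by
          rw [al, if_pos (Or.inl hu), Finset.insert_eq_of_mem hv, Finset.insert_eq_of_mem hu]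
        have hnE : nE (c :: B) X = nE B X + 1 := by rw [nE, if_pos ⟨hu, hv⟩]
        refine ⟨fun p => if p = c.1 ∨ p = c.2 then e c.1 + e c.2 else e p, ?_, ?_, ?_, ?_⟩
        · intro p
          have h1 := he1 c.1
          have h2 := he1 p
          simp only
          split_ifs <;> omega
        · intro p hp
          simp only at hp ⊢
          by_cases h1 : p = c.1 ∨ p = c.2
          · rw [if_pos h1] at hp ⊢
            obtain ⟨F₁, hF₁, hf₁⟩ := he2 c.1 (by omega)
            obtain ⟨F₂, hF₂, hf₂⟩ := he2 c.2 (by omega)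
            refine ⟨F₁ ∪ F₂, (Finset.card_union_le _ _).trans (by omega), ?_⟩
            intro z y hz hzR hzy hy
            obtain ⟨h2, h3⟩ := forces_two hf₁ hf₂ hz hzR hzy (fun q hq => hy q (Finset.mem_union_left _ hq))
              (fun q hq => hy q (Finset.mem_union_right _ hq))
            rcases h1 with rfl | rfl
            · exact h2
            · exact h3
          · rw [if_neg h1] at hp ⊢
            rw [not_or] at h1
            obtain ⟨F, hF, hf⟩ := he2 p hp
            exact ⟨F, hF, hold p h1.1 h1.2 F hf⟩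
        · intro p hp
          have h1 : p ≠ c.1 := fun h => hp (h ▸ hu)
          have h2 : p ≠ c.2 := fun h => hp (h ▸ hv)
          simp only
          rw [if_neg (by tauto)]
          exact he3 p (by rw [hal]; exact hp)
        · have h1 : ∑ p, psi r (e p) ≤ ∑ p, psi r (if p = c.1 ∨ p = c.2 then e c.1 + e c.2 else e p) + 2 ^ r := by
            refine sum_two hcL (fun p h1 h2 => by rw [if_neg (by tauto)]) ?_
            rw [if_pos (Or.inl rfl), if_pos (Or.inr rfl)]
            have := psi_add r (he1 c.1) (he1 c.2)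
            omega
          rw [hnE] at he4
          have h2 : 2 ^ r * (nE B X + 1) = 2 ^ r * nE B X + 2 ^ r := by ring
          simp only
          omega
      · -- one reached position
        have hnE : nE (c :: B) X = nE B X := by rw [nE, if_neg (fun h => hv h.2), Nat.add_zero]
        obtain ⟨e', h1, h2, h3, h4⟩ := step_dist hr hk hx hX (fun y hy => by rw [hB]; exact hL y hy)
          (Or.inl ⟨rfl, rfl⟩) hcL hu hv he1 he2 he3
        exact ⟨e', h1, h2, h3, by rw [hnE] at he4; omega⟩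
    · by_cases hv : c.2 ∈ al B X
      · have hnE : nE (c :: B) X = nE B X := by rw [nE, if_neg (fun h => hu h.1), Nat.add_zero]
        obtain ⟨e', h1, h2, h3, h4⟩ := step_dist hr hk hx hX (fun y hy => by rw [hB]; exact hL y hy)
          (Or.inr ⟨rfl, rfl⟩) hcL.symm hv hu he1 he2 he3
        exact ⟨e', h1, h2, h3, by rw [hnE] at he4; omega⟩
      · -- no reached position
        have hnE : nE (c :: B) X = nE B X := by rw [nE, if_neg (fun h => hu h.1), Nat.add_zero]
        have hal : al (c :: B) X = al B X := by rw [al, if_neg (by tauto)]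
        refine ⟨e, he1, ?_, ?_, by rw [hnE] at he4; exact he4⟩
        · intro p hp
          obtain ⟨F, hF, hf⟩ := he2 p hp
          have h1 : p ∈ al B X := by
            by_contra h1
            have := he3 p (by rw [hal]; exact h1)
            omega
          exact ⟨F, hF, hold p (fun h => hu (h ▸ h1)) (fun h => hv (h ▸ h1)) F hf⟩
        · intro p hp
          exact he3 p (by rw [hal]; exact hp)

/-- the calls with two reached positions -/
theorem nE_ge [Fintype V] {k r : ℕ} (hr : 2 * r ≤ k) (hk : k ≤ Fintype.card V) (hk0 : 0 < k) {x : Fin k → V}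
    (hx : Function.Injective x) {X : Finset V} (hX : ∀ i, x i ∈ X) (hXk : X.card = k) {L : List (V × V)}
    (hne : ∀ c ∈ L, c.1 ≠ c.2) (hL : ∀ y : Fin k → V, Function.Injective y → Rt L x y) :
    (2 ^ r - 1) * Fintype.card V ≤ (2 ^ r - 1) * k + 2 ^ r * nE L X := by
  obtain ⟨e, he1, -, he3, he4⟩ := potential hr hk hk0 hx hX hne hL L [] (List.append_nil L)
  have h1 : ∑ p, psi r (e p) ≤ (2 ^ r - 1) * k := by
    calc ∑ p, psi r (e p) = ∑ p ∈ X, psi r (e p) := by
          symm
          apply Finset.sum_subset (Finset.subset_univ X)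
          intro p _ hp
          exact psi_big (he3 p hp)
      _ ≤ ∑ p ∈ X, (2 ^ r - 1) := Finset.sum_le_sum fun p _ => psi_le (he1 p)
      _ = (2 ^ r - 1) * k := by rw [Finset.sum_const, hXk, smul_eq_mul, mul_comm]
  rw [nE, Nat.mul_zero, Nat.add_zero] at he4
  omega

end

end Pool.Agent.LT4
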