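import Pool.Agent.LT4.FinalC
import Pool.Agent.LT4.ForestG
import Pool.Agent.LT4.LowK
import Pool.Agent.LT4.GoodK

/-!
# [LT4-Main] the two bounds for all `k` (helper1)
-/

set_option autoImplicit false

namespace Pool.Agent.LT4

open Pool.Agent.LT74

theorem upper (k : ℕ) {ε : ℝ} (hε : 0 < ε) :
    ∃ n₀ : ℕ, ∀ n ≥ n₀, ∃ L : List (Fin n × Fin n), (∀ c ∈ L, c.1 ≠ c.2) ∧ Reaching k n L ∧
      (L.length : ℝ) ≤ (4 - 2 / 2 ^ (k / 2) + ε) * n :=
  final_of k (fun D hD => forestG k (2 ^ (k / 2)) D Nat.one_le_two_pow hD) hε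

section

variable {V : Type} [DecidableEq V]

theorem Rt.rch {ι : Type} {L : List (V × V)} {x y : ι → V} (h : Rt L x y) (i : ι) : Rch L (x i) (y i) := by
  induction L generalizing y with
  | nil =>
    obtain ⟨S, hS, h⟩ := h
    rw [List.sublist_nil] at hS
    subst hS
    exact h i
  | cons c L ih =>
    obtain ⟨z, h1, h2⟩ := h.cons_inv
    rcases h2 with h2 | h2
    · left
      rw [h2 i]
      exact ih h1
    · right
      rw [h2 i, Equiv.swap_apply_self]
      exact ih h1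

/-- the lower bound -/
theorem lower [Fintype V] {k r : ℕ} (hr : 2 * r ≤ k) (hk : k ≤ Fintype.card V) (hk0 : 0 < k) {L : List (V × V)}
    (hne : ∀ c ∈ L, c.1 ≠ c.2) (hL : ∀ x y : Fin k → V, Function.Injective x → Function.Injective y → Rt L x y) :
    (3 * 2 ^ r - 1) * Fintype.card V ≤ 2 ^ r * (L.length + Nat.log 2 (Fintype.card V) + 3 * k) := by
  obtain ⟨y⟩ : Nonempty V := Fintype.card_pos_iff.1 (by omega)
  have hcp : cp (co L {y}) y = Finset.univ := by
    refine Finset.eq_univ_of_forall fun x => ?_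
    obtain ⟨f, hf, hfx⟩ := exists_target hk {x} (by rw [Finset.card_singleton]; omega)
    obtain ⟨g, hg, hgy⟩ := exists_target hk {y} (by rw [Finset.card_singleton]; omega)
    obtain ⟨i, hi⟩ := hfx x (Finset.mem_singleton_self x)
    obtain ⟨j, hj⟩ := hgy y (Finset.mem_singleton_self y)
    have h1 := (hL f (fun a => g (Equiv.swap i j a)) hf (hg.comp (Equiv.injective _))).rch i
    rw [Equiv.swap_apply_left, hi, hj] at h1
    exact mem_cp_co L {y} x y (Finset.mem_singleton_self y) h1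
  obtain ⟨X, -, hXk, hX⟩ := good_k (co L {y}) y k hk0 (by rw [hcp, Finset.card_univ]; exact hk)
  rw [hcp, Finset.card_univ] at hX
  obtain ⟨x, hx, hxX⟩ : ∃ x : Fin k → V, Function.Injective x ∧ ∀ i, x i ∈ X := by
    let e : Fin k ≃ X := (Finset.equivFinOfCardEq hXk).symm
    exact ⟨fun i => e i, fun i i' hii => e.injective (Subtype.ext hii), fun i => (e i).2⟩
  have hal : al L X = Finset.univ := by
    refine Finset.eq_univ_of_forall fun p => ?_
    obtain ⟨g, hg, hgp⟩ := exists_target hk {p} (by rw [Finset.card_singleton]; omega)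
    obtain ⟨j, hj⟩ := hgp p (Finset.mem_singleton_self p)
    rw [← hj]
    exact (hL x g hx hg).mem_al hxX j
  have h1 := nA_eq L hne X
  have h2 := nE_ge hr hk hk0 hx hxX hXk hne (fun g hg => hL x g hx hg)
  have h3 := en_le (co L {y}) Finset.univ
  have h4 := nA_add_nD (co L {y}) X
  have h5 := nD_co_le L X {y}
  have h6 := nA_add_nD L X
  rw [hal, Finset.card_univ, hXk] at h1
  obtain ⟨q, hq⟩ : ∃ q, q + 1 = 2 ^ r := ⟨2 ^ r - 1, by have : 1 ≤ 2 ^ r := Nat.one_le_two_pow; omega⟩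
  obtain ⟨n, hn⟩ : ∃ n, n = Fintype.card V := ⟨_, rfl⟩
  obtain ⟨l, hl⟩ : ∃ l, l = Nat.log 2 n := ⟨_, rfl⟩
  rw [← hn] at hX h1 h2 ⊢
  rw [← hl] at hX ⊢
  rw [← hq] at h2 ⊢
  have e1 : 3 * (q + 1) - 1 = 3 * q + 2 := by omega
  have e2 : q + 1 - 1 = q := by omega
  rw [e1]
  rw [e2] at h2
  have h7 : n ≤ l + k + nD L X := by omega
  have h8 : (q + 1) * n ≤ (q + 1) * (l + k + nD L X) := Nat.mul_le_mul_left _ h7
  have h9 : (q + 1) * (nA L X + k) = (q + 1) * (nE L X + n) := by rw [h1]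
  rw [← h6]
  nlinarith

end

end Pool.Agent.LT4
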